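import Pool.Agent.H706R2.PS.Fin3

/-! Piatetski-Shapiro sequences: the law for polynomially many sets per dyadic scale,
uniformly, for all exponents outside a set of Hausdorff dimension less than one. -/

open Finset MeasureTheory Filter

set_option autoImplicit false

namespace Pool.Agent.Y854.PS

open Pool.Agent.H706R2.PS

section Dim

open scoped Topology ENNReal NNReal

lemma pow_form' (i : ℕ) (a : ℝ) : ((2 : ℝ) ^ i) ^ a = ((2 : ℝ) ^ a) ^ i := by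
  rw [← Real.rpow_natCast, ← Real.rpow_natCast, ← Real.rpow_mul (by norm_num),
    ← Real.rpow_mul (by norm_num), mul_comm]

/-- Hausdorff dimension of an upper limit set (version of `w14` with a little room) -/
theorem w14b (κ : ℝ) (B : ℕ → Set ℝ) (hκ0 : 0 < κ) (hκ1 : κ ≤ 1) (h : ∃ i0 : ℕ, ∀ i : ℕ, i0 ≤ i →
    ∃ S : Finset ℝ, (S.card : ℝ) ≤ ((2 : ℝ) ^ i) ^ (1 + 241 * κ / 128) ∧
      B i ⊆ ⋃ x ∈ S, Set.Icc x (x + ((2 : ℝ) ^ i) ^ (-(1 + 31 * κ / 16)))) :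
    dimH {c : ℝ | ∀ i1 : ℕ, ∃ i : ℕ, i1 ≤ i ∧ c ∈ B i} ≤ ENNReal.ofReal (1 - κ / 64) := by
  obtain ⟨i0, h⟩ := h
  choose! S hS1 hS2 using h
  set D : ℝ := 1 - κ / 64 with hD
  have hD0 : 0 < D := by rw [hD]; linarith
  have hDn : ((Real.toNNReal D : ℝ≥0) : ℝ) = D := Real.coe_toNNReal D hD0.le
  have hgoal : ENNReal.ofReal D = ((Real.toNNReal D : ℝ≥0) : ℝ≥0∞) := rfl
  rw [hgoal]
  apply dimH_le_of_hausdorffMeasure_ne_top
  rw [hDn]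
  set q0 : ℝ := (2 : ℝ) ^ (-(1 + 31 * κ / 16)) with hq0
  have hq0pos : 0 < q0 := Real.rpow_pos_of_pos (by norm_num) _
  have hq0lt : q0 < 1 := Real.rpow_lt_one_of_one_lt_of_neg (by norm_num) (by nlinarith)
  set q : ℝ := (2 : ℝ) ^ (-(9 * κ / 1024)) with hq
  have hqpos : 0 < q := Real.rpow_pos_of_pos (by norm_num) _
  have hqlt : q < 1 := Real.rpow_lt_one_of_one_lt_of_neg (by norm_num) (by nlinarith)
  have hrr : ∀ i : ℕ, ((2 : ℝ) ^ i) ^ (-(1 + 31 * κ / 16)) = q0 ^ i := fun i => pow_form' i _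
  have hlev : ∀ i : ℕ, i0 ≤ i → ((S i).card : ℝ) * (q0 ^ i) ^ D ≤ q ^ i := by
    intro i hi
    have h1 := hS1 i hi
    have h2 : (0:ℝ) ≤ (q0 ^ i) ^ D := by positivity
    refine (mul_le_mul_of_nonneg_right h1 h2).trans ?_
    have hX : (1 : ℝ) ≤ (2 : ℝ) ^ i := one_le_pow₀ (by norm_num)
    have hX0 : (0 : ℝ) < (2 : ℝ) ^ i := by positivity
    rw [← hrr i, ← Real.rpow_mul hX0.le, ← Real.rpow_add hX0, hq, ← pow_form' i]
    apply Real.rpow_le_rpow_of_exponent_le hX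
    rw [hD]
    nlinarith
  have hr : Tendsto (fun n : ℕ => ENNReal.ofReal (q0 ^ n)) atTop (𝓝 0) := by
    have h1 := tendsto_pow_atTop_nhds_zero_of_lt_one hq0pos.le hq0lt
    have h2 := ENNReal.tendsto_ofReal h1
    simpa using h2
  have hd : ∀ (n : ℕ) (p : Σ i : ℕ, (S (n + i0 + i))),
      Metric.ediam (Set.Icc ((p.2 : ℝ)) ((p.2 : ℝ) + q0 ^ (n + i0 + p.1))) =
        ENNReal.ofReal (q0 ^ (n + i0 + p.1)) := by
    intro n p
    rw [Real.ediam_Icc]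
    congr 1
    ring
  have key := Measure.hausdorffMeasure_le_liminf_tsum (X := ℝ) (β := ℕ)
    (ι := fun n => Σ i : ℕ, (S (n + i0 + i))) D {c : ℝ | ∀ i1 : ℕ, ∃ i : ℕ, i1 ≤ i ∧ c ∈ B i}
    (l := atTop) (fun n : ℕ => ENNReal.ofReal (q0 ^ n)) hr
    (fun n p => Set.Icc ((p.2 : ℝ)) ((p.2 : ℝ) + q0 ^ (n + i0 + p.1)))
    (Eventually.of_forall fun n p => by
      rw [hd n p]
      apply ENNReal.ofReal_le_ofReal
      exact pow_le_pow_of_le_one hq0pos.le hq0lt.le (by omega))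
    (Eventually.of_forall fun n c hc => by
      obtain ⟨i, hi1, hi2⟩ := hc (n + i0)
      have h3 := hS2 i (by omega) hi2
      simp only [Set.mem_iUnion] at h3
      obtain ⟨x, hx, hxc⟩ := h3
      obtain ⟨k, rfl⟩ := Nat.exists_eq_add_of_le hi1
      rw [Set.mem_iUnion]
      refine ⟨⟨k, ⟨x, hx⟩⟩, ?_⟩
      rw [hrr] at hxc
      exact hxc)
  refine ne_top_of_le_ne_top ?_ key
  have hbound : ∀ n : ℕ, (∑' p : Σ i : ℕ, (S (n + i0 + i)),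
      Metric.ediam (Set.Icc ((p.2 : ℝ)) ((p.2 : ℝ) + q0 ^ (n + i0 + p.1))) ^ D) ≤
      ENNReal.ofReal (1 / (1 - q)) := by
    intro n
    rw [ENNReal.tsum_sigma']
    calc (∑' i : ℕ, ∑' x : (S (n + i0 + i)),
        Metric.ediam (Set.Icc ((x : ℝ)) ((x : ℝ) + q0 ^ (n + i0 + i))) ^ D)
        ≤ ∑' i : ℕ, ENNReal.ofReal (q ^ i) := by
          apply ENNReal.tsum_le_tsum
          intro i
          have h1 : ∀ x : (S (n + i0 + i)),
              Metric.ediam (Set.Icc ((x : ℝ)) ((x : ℝ) + q0 ^ (n + i0 + i))) ^ D =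
                ENNReal.ofReal ((q0 ^ (n + i0 + i)) ^ D) := by
            intro x
            rw [hd n ⟨i, x⟩, ENNReal.ofReal_rpow_of_pos (by positivity)]
          simp only [h1]
          rw [tsum_fintype]
          simp only [Finset.sum_const, Finset.card_univ, Fintype.card_coe, nsmul_eq_mul]
          rw [← ENNReal.ofReal_natCast, ← ENNReal.ofReal_mul (by positivity)]
          apply ENNReal.ofReal_le_ofReal
          refine (hlev (n + i0 + i) (by omega)).trans ?_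
          exact pow_le_pow_of_le_one hqpos.le hqlt.le (by omega)
      _ = ENNReal.ofReal (∑' i : ℕ, q ^ i) := by
          rw [ENNReal.ofReal_tsum_of_nonneg (fun i => by positivity)
            (summable_geometric_of_lt_one hqpos.le hqlt)]
      _ = ENNReal.ofReal (1 / (1 - q)) := by
          rw [tsum_geometric_of_lt_one hqpos.le hqlt, one_div]
  refine ne_top_of_le_ne_top (ENNReal.ofReal_ne_top (r := 1 / (1 - q))) ?_
  apply Filter.liminf_le_of_le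
  · isBoundedDefault
  · intro b hb
    obtain ⟨n, hn⟩ := hb.exists
    exact hn.trans (hbound n)

end Dim

/-- `Ax` only depends on the elements of the interval -/
lemma Ax_congr {A A' : Set ℕ} {X y : ℕ} (h : ∀ m, X < m → m ≤ y → (m ∈ A ↔ m ∈ A')) :
    Ax A X y = Ax A' X y := by
  classical
  unfold Ax
  apply Finset.filter_congr
  intro m hm
  rw [mem_Ioc] at hm
  exact h m hm.1 hm.2

lemma nPS_congr {A A' : Set ℕ} {c : ℝ} {X y : ℕ} (h : ∀ m, X < m → m ≤ y → (m ∈ A ↔ m ∈ A')) :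
    nPS A c X y = nPS A' c X y := by
  unfold nPS
  rw [Ax_congr h]

lemma yp_le (X T t : ℕ) : yp X T t ≤ 2 * X := min_le_right _ _

lemma Bad_congr {A A' : Set ℕ} {κ c1 c2 : ℝ} {i : ℕ}
    (h : ∀ m, 2 ^ i < m → m ≤ 2 * 2 ^ i → (m ∈ A ↔ m ∈ A')) :
    Bad A κ c1 c2 i = Bad A' κ c1 c2 i := by
  unfold Bad
  have e : ∀ t, Ax A (2 ^ i) (yp (2 ^ i) ⌈((2 : ℝ) ^ i) ^ (κ / 4)⌉₊ t) =
      Ax A' (2 ^ i) (yp (2 ^ i) ⌈((2 : ℝ) ^ i) ^ (κ / 4)⌉₊ t) := by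
    intro t
    apply Ax_congr
    intro m h1 h2
    exact h m h1 (h2.trans (yp_le _ _ _))
  simp only [e]

lemma notMem_Bad_empty {κ c1 c2 c : ℝ} {i : ℕ} : c ∉ Bad ∅ κ c1 c2 i := by
  rintro ⟨-, t, -, h⟩
  have e : ∀ X y, Ax ∅ X y = ∅ := by
    intro X y
    unfold Ax
    simp
  rw [e] at h
  unfold cnt mainT at h
  simp only [Finset.filter_empty, Finset.card_empty, Nat.cast_zero, Finset.sum_const_zero,
    Finset.sum_empty, sub_zero, abs_zero] at h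
  have : (0 : ℝ) < ((2 : ℝ) ^ i) ^ (1 / c2 - κ / 2) := by positivity
  linarith

/-- the uniform version of `W13` for a family of sets at each scale -/
theorem w13fam (C0 κ c1 c2 : ℝ) (hC0 : 1 ≤ C0) (hκ : 0 < κ) (hκ2 : κ ≤ 1 / (8 * C0)) (h1 : 1 ≤ c1)
    (h12 : c1 ≤ c2) (h2 : c2 ≤ C0) (h3 : 1 / c1 - 1 / c2 ≤ κ) (M : ℕ → ℕ) (A : ℕ → ℕ → Set ℕ) (c : ℝ)
    (hc : c ∈ Set.Icc c1 c2) (hbad : ∃ i1 : ℕ, ∀ i : ℕ, i1 ≤ i → ∀ k < M i, c ∉ Bad (A i k) κ c1 c2 i) :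
    ∃ i0 : ℕ, ∀ i : ℕ, i0 ≤ i → ∀ k < M i, ∀ y : ℕ, 2 ^ i ≤ y → y ≤ 2 ^ (i + 1) →
      |nPS (A i k) c (2 ^ i) y - mainT (Ax (A i k) (2 ^ i) y) c| ≤ 8 * ((2 : ℝ) ^ i) ^ (1 / c - κ / 4) := by
  classical
  by_contra hcon
  push Not at hcon
  -- the selection
  let V : ℕ → ℕ → Prop := fun i k => k < M i ∧ ∃ y : ℕ, 2 ^ i ≤ y ∧ y ≤ 2 ^ (i + 1) ∧
    8 * ((2 : ℝ) ^ i) ^ (1 / c - κ / 4) < |nPS (A i k) c (2 ^ i) y - mainT (Ax (A i k) (2 ^ i) y) c|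
  let B : ℕ → Set ℕ := fun i => if h : ∃ k, V i k then A i h.choose else ∅
  have hB : ∀ i, (∃ k, k < M i ∧ B i = A i k) ∨ B i = ∅ := by
    intro i
    by_cases h : ∃ k, V i k
    · left
      exact ⟨h.choose, h.choose_spec.1, by simp only [B, dif_pos h]⟩
    · right
      simp only [B, dif_neg h]
  let A' : Set ℕ := {m | m ∈ B (Nat.log 2 (m - 1))}
  have hA' : ∀ i m, 2 ^ i < m → m ≤ 2 * 2 ^ i → (m ∈ A' ↔ m ∈ B i) := by
    intro i m hm1 hm2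
    have : Nat.log 2 (m - 1) = i := by
      apply Nat.log_eq_of_pow_le_of_lt_pow
      · omega
      · rw [pow_succ]; omega
    simp only [A', Set.mem_setOf_eq, this]
  obtain ⟨i1, hi1⟩ := hbad
  have hA'bad : ∃ i1 : ℕ, ∀ i : ℕ, i1 ≤ i → c ∉ Bad A' κ c1 c2 i := by
    refine ⟨i1, fun i hi => ?_⟩
    rw [Bad_congr (hA' i)]
    rcases hB i with ⟨k, hk, e⟩ | e
    · rw [e]; exact hi1 i hi k hk
    · rw [e]; exact notMem_Bad_empty
  obtain ⟨i0, hi0⟩ := w13 t11a C0 κ c1 c2 hC0 hκ hκ2 h1 h12 h2 h3 A' c hc hA'bad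
  obtain ⟨i, hi, k, hk, y, hy1, hy2, hv⟩ := hcon i0
  have hV : ∃ k, V i k := ⟨k, hk, y, hy1, hy2, hv⟩
  obtain ⟨-, y', hy1', hy2', hv'⟩ := hV.choose_spec
  have hBi : B i = A i hV.choose := by simp only [B, dif_pos hV]
  have h4 := hi0 i hi y' hy1' hy2'
  have hcg : ∀ m, 2 ^ i < m → m ≤ y' → (m ∈ A' ↔ m ∈ A i hV.choose) := by
    intro m hm1 hm2
    rw [hA' i m hm1 (hm2.trans (hy2'.trans (by rw [pow_succ]; omega))), hBi]
  rw [nPS_congr hcg, Ax_congr hcg] at h4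
  exact absurd h4 (not_le.mpr hv')

/-- union of the coverings -/
theorem w12fam : ∀ C0 : ℝ, 1 ≤ C0 → ∃ κ : ℝ, 0 < κ ∧ κ ≤ 1 / (8 * C0) ∧
    ∀ c1 c2 : ℝ, 1 ≤ c1 → c1 ≤ c2 → c2 ≤ C0 → 1 / c1 - 1 / c2 ≤ κ → ∀ M : ℕ → ℕ,
    (∀ᶠ i : ℕ in atTop, (M i : ℝ) ≤ ((2 : ℝ) ^ i) ^ (κ / 128)) → ∃ i0 : ℕ,
    ∀ (A : ℕ → ℕ → Set ℕ) (i : ℕ), i0 ≤ i →
      ∃ S : Finset ℝ, (S.card : ℝ) ≤ ((2 : ℝ) ^ i) ^ (1 + 241 * κ / 128) ∧
        (⋃ k ∈ Finset.range (M i), Bad (A i k) κ c1 c2 i) ⊆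
          ⋃ x ∈ S, Set.Icc x (x + ((2 : ℝ) ^ i) ^ (-(1 + 31 * κ / 16))) := by
  classical
  intro C0 hC0
  obtain ⟨κ, hκ0, hκ1, h⟩ := w12 (w10b t3_full (w10a (w7 w5 w6) w8 (w9 w4))) w11 C0 hC0
  refine ⟨κ, hκ0, hκ1, fun c1 c2 h1 h2 h3 h4 M hM => ?_⟩
  obtain ⟨i0, hi0⟩ := h c1 c2 h1 h2 h3 h4
  obtain ⟨i2, hi2⟩ := hM.exists_forall_of_atTop
  refine ⟨max i0 i2, fun A i hi => ?_⟩
  have hii0 : i0 ≤ i := (le_max_left _ _).trans hi
  have hii2 : i2 ≤ i := (le_max_right _ _).trans hi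
  have h5 : ∀ k, ∃ S : Finset ℝ, (S.card : ℝ) ≤ ((2 : ℝ) ^ i) ^ (1 + 15 * κ / 8) ∧
      Bad (A i k) κ c1 c2 i ⊆ ⋃ x ∈ S, Set.Icc x (x + ((2 : ℝ) ^ i) ^ (-(1 + 31 * κ / 16))) :=
    fun k => hi0 (A i k) i hii0
  choose S hS1 hS2 using h5
  refine ⟨(Finset.range (M i)).biUnion S, ?_, ?_⟩
  · have hX0 : (0 : ℝ) < (2 : ℝ) ^ i := by positivity
    calc (((Finset.range (M i)).biUnion S).card : ℝ) ≤ ∑ k ∈ Finset.range (M i), ((S k).card : ℝ) := by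
          exact_mod_cast Finset.card_biUnion_le
      _ ≤ ∑ k ∈ Finset.range (M i), ((2 : ℝ) ^ i) ^ (1 + 15 * κ / 8) :=
          Finset.sum_le_sum fun k _ => hS1 k
      _ = (M i : ℝ) * ((2 : ℝ) ^ i) ^ (1 + 15 * κ / 8) := by
          rw [Finset.sum_const, Finset.card_range, nsmul_eq_mul]
      _ ≤ ((2 : ℝ) ^ i) ^ (κ / 128) * ((2 : ℝ) ^ i) ^ (1 + 15 * κ / 8) := by
          apply mul_le_mul_of_nonneg_right (hi2 i hii2) (by positivity)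
      _ = ((2 : ℝ) ^ i) ^ (1 + 241 * κ / 128) := by
          rw [← Real.rpow_add hX0]
          congr 1
          ring
  · intro c hc
    simp only [Set.mem_iUnion, Finset.mem_range, exists_prop] at hc
    obtain ⟨k, hk, hc⟩ := hc
    have h6 := hS2 k hc
    simp only [Set.mem_iUnion, exists_prop] at h6 ⊢
    obtain ⟨x, hx, hxc⟩ := h6
    exact ⟨x, Finset.mem_biUnion.mpr ⟨k, Finset.mem_range.mpr hk, hx⟩, hxc⟩

/-- polynomial growth is enough -/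
lemma poly_growth (p : ℕ) (κ : ℝ) (hκ : 0 < κ) : ∀ᶠ i : ℕ in atTop, ((i : ℝ) + 2) ^ p ≤ ((2 : ℝ) ^ i) ^ κ := by
  have h1 : Tendsto (fun x : ℝ => x ^ (p : ℝ) * Real.exp (-(κ * Real.log 2) * x)) atTop (nhds 0) :=
    tendsto_rpow_mul_exp_neg_mul_atTop_nhds_zero _ _ (mul_pos hκ (Real.log_pos (by norm_num)))
  have h2 : Tendsto (fun i : ℕ => (i : ℝ) + 2) atTop atTop :=
    tendsto_atTop_add_const_right _ _ tendsto_natCast_atTop_atTop
  have h3 := (h1.comp h2).eventually (gt_mem_nhds (show (0 : ℝ) < Real.exp (-(κ * Real.log 2) * 2) by positivity))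
  filter_upwards [h3] with i hi
  simp only [Function.comp] at hi
  have e : Real.exp (-(κ * Real.log 2) * ((i : ℝ) + 2)) =
      Real.exp (-(κ * Real.log 2) * 2) * Real.exp (-(κ * Real.log 2) * i) := by
    rw [← Real.exp_add]; congr 1; ring
  rw [e, Real.rpow_natCast] at hi
  have h4 : 0 < Real.exp (-(κ * Real.log 2) * 2) := Real.exp_pos _
  have h5 : ((i : ℝ) + 2) ^ p * Real.exp (-(κ * Real.log 2) * i) < 1 := by
    by_contra hcon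
    push Not at hcon
    have : Real.exp (-(κ * Real.log 2) * 2) * 1 ≤
        Real.exp (-(κ * Real.log 2) * 2) * (((i : ℝ) + 2) ^ p * Real.exp (-(κ * Real.log 2) * i)) :=
      mul_le_mul_of_nonneg_left hcon h4.le
    nlinarith
  have e2 : ((2 : ℝ) ^ i) ^ κ = Real.exp (κ * Real.log 2 * i) := by
    rw [Real.rpow_def_of_pos (by positivity), Real.log_pow]
    congr 1; ring
  rw [e2]
  have h6 : Real.exp (-(κ * Real.log 2) * i) = (Real.exp (κ * Real.log 2 * i))⁻¹ := by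
    rw [← Real.exp_neg]; congr 1; ring
  rw [h6, ← div_eq_mul_inv, div_lt_one (Real.exp_pos _)] at h5
  exact h5.le

/-- **The law for families of sets.** -/
theorem fam : ∀ C0 : ℝ, 1 ≤ C0 → ∃ κ : ℝ, 0 < κ ∧ κ ≤ 1 / (8 * C0) ∧ ∀ (p : ℕ) (M : ℕ → ℕ),
    (∀ i, M i ≤ (i + 2) ^ p) → ∀ A : ℕ → ℕ → Set ℕ,
    ∃ E : Set ℝ, dimH E ≤ ENNReal.ofReal (1 - κ / 64) ∧ ∀ c : ℝ, 1 < c → c ≤ C0 → c ∉ E →
      ∃ i0 : ℕ, ∀ i : ℕ, i0 ≤ i → ∀ k < M i, ∀ y : ℕ, 2 ^ i ≤ y → y ≤ 2 ^ (i + 1) →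
        |nPS (A i k) c (2 ^ i) y - mainT (Ax (A i k) (2 ^ i) y) c| ≤
          8 * ((2 : ℝ) ^ i) ^ (1 / c - κ / 4) := by
  intro C0 hC0
  obtain ⟨κ, hκ0, hκ1, h⟩ := w12fam C0 hC0
  have hκle : κ ≤ 1 := by
    refine hκ1.trans ?_
    rw [div_le_one (by linarith)]
    linarith
  refine ⟨κ, hκ0, hκ1, fun p M hM A => ?_⟩
  have hgr : ∀ᶠ i : ℕ in atTop, (M i : ℝ) ≤ ((2 : ℝ) ^ i) ^ (κ / 128) := by
    filter_upwards [poly_growth p (κ / 128) (by positivity)] with i hi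
    refine le_trans ?_ hi
    exact_mod_cast hM i
  refine ⟨⋃ j : ℕ, {c : ℝ | ∀ i1 : ℕ, ∃ i : ℕ, i1 ≤ i ∧
    c ∈ ⋃ k ∈ Finset.range (M i), Bad (A i k) κ (w15p κ C0 j) (w15p κ C0 (j + 1)) i}, ?_, ?_⟩
  · rw [dimH_iUnion]
    refine iSup_le fun j => ?_
    obtain ⟨e1, e2, e3, e4⟩ := w15_ends κ C0 hC0 hκ0 j
    obtain ⟨i0, hi0⟩ := h _ _ e1 e2 e3 e4 M hgr
    exact w14b κ _ hκ0 hκle ⟨i0, fun i hi => hi0 A i hi⟩
  · intro c hc1 hc2 hE
    have hq0 : 0 ≤ (c - 1) / κ := div_nonneg (by linarith) hκ0.le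
    have hfl := Nat.floor_le hq0
    have hlt := Nat.lt_floor_add_one ((c - 1) / κ)
    rw [le_div_iff₀ hκ0] at hfl
    rw [div_lt_iff₀ hκ0] at hlt
    set j := ⌊(c - 1) / κ⌋₊ with hj
    obtain ⟨e1, e2, e3, e4⟩ := w15_ends κ C0 hC0 hκ0 j
    have hmem : c ∈ Set.Icc (w15p κ C0 j) (w15p κ C0 (j + 1)) := by
      constructor
      · exact (min_le_left _ _).trans (by linarith)
      · refine le_min ?_ hc2
        push_cast
        linarith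
    have hnot : ∃ i1 : ℕ, ∀ i : ℕ, i1 ≤ i → ∀ k < M i,
        c ∉ Bad (A i k) κ (w15p κ C0 j) (w15p κ C0 (j + 1)) i := by
      by_contra hcon
      apply hE
      rw [Set.mem_iUnion]
      refine ⟨j, fun i1 => ?_⟩
      by_contra h'
      apply hcon
      refine ⟨i1, fun i hi k hk hb => h' ⟨i, hi, ?_⟩⟩
      simp only [Set.mem_iUnion, Finset.mem_range, exists_prop]
      exact ⟨k, hk, hb⟩
    exact w13fam C0 κ _ _ hC0 hκ0 hκ1 e1 e2 e3 e4 M A c hmem hnot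

end Pool.Agent.Y854.PS
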