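import Pool.Agent.Y854.PS.Scale
import Pool.Agent.Y854.PS.Fam
import Pool.Agent.H706R2.PS.A3
import Pool.Agent.H706R2.PS.A4
import Pool.Agent.H706R2.PS.A5
import Pool.Agent.H706R2.PS.A6
import Pool.Agent.H706R2.PS.A7
import Pool.Agent.H706R2.PS.A9
import Pool.Agent.H706R2.PS.A10a
import Pool.Agent.H706R2.PS.A10b
import Pool.Agent.H706R2.PS.A11
import Pool.Agent.H706R2.PS.A12
import Pool.Agent.H706R2.PS.A13

/-! The sampling hypothesis for `α n^c`, for all `α` outside a small set. -/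

set_option autoImplicit false

open Finset MeasureTheory Filter

namespace Pool.Agent.Y854.PS

open Pool.Agent.H706R2.PS
open Pool.Agent.H706R2.PS.A13aux

/-- one dyadic block -/
theorem blockA (c κ a1 a2 : ℝ) (hc : 1 < c) (hκ : 0 < κ) (hκ2 : κ ≤ 1 / (8 * c)) (ha1 : 0 < a1)
    (A : Set ℕ) (α : ℝ) (hαI : α ∈ Set.Icc a1 a2) (i : ℕ) (hnB : α ∉ BadA A c κ a1 a2 i) :
    ∀ y : ℕ, 2 ^ i ≤ y → y ≤ 2 ^ (i + 1) →
      |∑ m ∈ Ioc (2 ^ i) y, (ft A c α m - mt A c α m)| ≤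
        (1 + 2 * α ^ (-(1 / c))) * ((2 : ℝ) ^ i) ^ (1 / c - κ / 4) := by
  have hc1 : 1 ≤ c := hc.le
  have hc0 : 0 < c := by linarith
  have hα : 0 < α := ha1.trans_le hαI.1
  have hκc : κ * c ≤ 1 / 8 := by
    have h1 : κ * (8 * c) ≤ 1 := by
      rwa [le_div_iff₀ (by positivity)] at hκ2
    linarith
  have hκ1 : κ ≤ 1 := by nlinarith
  set K : ℝ := 1 + 2 * α ^ (-(1 / c)) with hK
  intro y hy hy2
  set X : ℕ := 2 ^ i with hXdef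
  have hX1 : 1 ≤ X := Nat.one_le_two_pow
  have hXp : (0 : ℝ) < X := by exact_mod_cast hX1
  have hX1' : (1 : ℝ) ≤ X := by exact_mod_cast hX1
  have hXc : (2 : ℝ) ^ i = (X : ℝ) := by rw [hXdef]; push_cast; rfl
  set T : ℕ := ⌈(X : ℝ) ^ (κ / 4)⌉₊ with hT
  have hT0 : (X : ℝ) ^ (κ / 4) ≤ T := Nat.le_ceil _
  have hT1 : (1 : ℝ) ≤ (X : ℝ) ^ (κ / 4) := Real.one_le_rpow hX1' (by linarith)
  have hTp : 0 < T := by
    have : (0 : ℝ) < T := by linarith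
    exact_mod_cast this
  set L : ℕ := X / T + 1 with hL
  have hXL : X / L < T := by
    rw [Nat.div_lt_iff_lt_mul (Nat.succ_pos _)]
    exact Nat.lt_mul_div_succ X hTp
  have hyX : y ≤ 2 * X := by
    rw [hXdef, mul_comm, ← pow_succ]; exact hy2
  have hgrid : ∀ t, t < X / L + 2 →
      |∑ m ∈ Ioc X (min (X + t * L) (2 * X)), ft A c α m -
        ∑ m ∈ Ioc X (min (X + t * L) (2 * X)), mt A c α m| ≤ (X : ℝ) ^ (1 / c - κ / 2) := by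
    intro t ht
    have htT : t ≤ T := by omega
    rw [← cA_eq A hc1 ha1 hαI.1 hX1 (min_le_right _ _), ← mA_eq]
    by_contra hcon
    apply hnB
    refine ⟨hαI, t, ?_, ?_⟩
    · rw [hXc]
      exact htT
    · rw [hXc]
      exact not_le.1 hcon
  have hu : 0 ≤ α ^ (-(1 / c)) * (X : ℝ) ^ (1 / c - 1) := by positivity
  have hfin := grid X L y (fun y => ∑ m ∈ Ioc X y, ft A c α m)
    (fun y => ∑ m ∈ Ioc X y, mt A c α m) _ (L * (α ^ (-(1 / c)) * (X : ℝ) ^ (1 / c - 1)))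
    (Nat.succ_le_succ (Nat.zero_le _)) hy hyX
    (sum_mono (ft_nonneg A c α) X) (sum_mono (mt_nonneg A hc1 hα) X)
    (sum_inc (mt_nonneg A hc1 hα) hu (fun m hm => mt_le A hc1 hα hX1 hm)) hgrid
  rw [Finset.sum_sub_distrib]
  refine hfin.trans ?_
  rw [hXc]
  have hε : (X : ℝ) ^ (1 / c - κ / 2) ≤ (X : ℝ) ^ (1 / c - κ / 4) := by
    apply Real.rpow_le_rpow_of_exponent_le hX1'
    linarith
  have hLX : (L : ℝ) * (X : ℝ) ^ (1 / c - 1) ≤ 2 * (X : ℝ) ^ (1 / c - κ / 4) := by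
    have h14 : (L : ℝ) ≤ 2 * (X : ℝ) ^ (1 - κ / 4) := by
      have h15 : ((X / T : ℕ) : ℝ) ≤ (X : ℝ) / (T : ℝ) := Nat.cast_div_le
      have h16 : (X : ℝ) / (T : ℝ) ≤ (X : ℝ) / (X : ℝ) ^ (κ / 4) := by gcongr
      have h17 : (X : ℝ) / (X : ℝ) ^ (κ / 4) = (X : ℝ) ^ (1 - κ / 4) := by
        rw [Real.rpow_sub hXp, Real.rpow_one]
      have h18 : (1 : ℝ) ≤ (X : ℝ) ^ (1 - κ / 4) := Real.one_le_rpow hX1' (by linarith)
      rw [hL]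
      push_cast
      linarith
    have h17 : 0 ≤ (X : ℝ) ^ (1 / c - 1) := Real.rpow_nonneg hXp.le _
    calc (L : ℝ) * (X : ℝ) ^ (1 / c - 1)
        ≤ 2 * (X : ℝ) ^ (1 - κ / 4) * (X : ℝ) ^ (1 / c - 1) := by gcongr
      _ = 2 * (X : ℝ) ^ (1 / c - κ / 4) := by
          rw [mul_assoc, ← Real.rpow_add hXp]
          congr 2; ring
  have h9 : 0 ≤ α ^ (-(1 / c)) := by positivity
  calc (X : ℝ) ^ (1 / c - κ / 2) + L * (α ^ (-(1 / c)) * (X : ℝ) ^ (1 / c - 1))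
      = (X : ℝ) ^ (1 / c - κ / 2) + α ^ (-(1 / c)) * (L * (X : ℝ) ^ (1 / c - 1)) := by ring
    _ ≤ (X : ℝ) ^ (1 / c - κ / 4) + α ^ (-(1 / c)) * (2 * (X : ℝ) ^ (1 / c - κ / 4)) :=
        add_le_add hε (mul_le_mul_of_nonneg_left hLX h9)
    _ = K * (X : ℝ) ^ (1 / c - κ / 4) := by rw [hK]; ring

/-- union of the coverings -/
theorem a12fam : ∀ c : ℝ, 1 ≤ c → ∃ κ : ℝ, 0 < κ ∧ κ ≤ 1 / (8 * c) ∧
    ∀ a1 a2 : ℝ, 0 < a1 → a1 ≤ a2 → a2 ≤ 2 * a1 → ∀ M : ℕ → ℕ,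
    (∀ᶠ i : ℕ in atTop, (M i : ℝ) ≤ ((2 : ℝ) ^ i) ^ (κ / 128)) → ∃ i0 : ℕ,
    ∀ (A : ℕ → ℕ → Set ℕ) (i : ℕ), i0 ≤ i →
      ∃ S : Finset ℝ, (S.card : ℝ) ≤ ((2 : ℝ) ^ i) ^ (1 + 241 * κ / 128) ∧
        (⋃ k ∈ Finset.range (M i), BadA (A i k) c κ a1 a2 i) ⊆
          ⋃ x ∈ S, Set.Icc x (x + ((2 : ℝ) ^ i) ^ (-(1 + 31 * κ / 16))) := by
  classical
  intro c hc
  obtain ⟨κ, hκ0, hκ1, h⟩ := a12 (a10b a3 (a10a (a7 a5 a6) (a9 a4))) a11 c hc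
  refine ⟨κ, hκ0, hκ1, fun c1 c2 h1 h2 h3 M hM => ?_⟩
  obtain ⟨i0, hi0⟩ := h c1 c2 h1 h2 h3
  obtain ⟨i2, hi2⟩ := hM.exists_forall_of_atTop
  refine ⟨max i0 i2, fun A i hi => ?_⟩
  have hii0 : i0 ≤ i := (le_max_left _ _).trans hi
  have hii2 : i2 ≤ i := (le_max_right _ _).trans hi
  have h5 : ∀ k, ∃ S : Finset ℝ, (S.card : ℝ) ≤ ((2 : ℝ) ^ i) ^ (1 + 15 * κ / 8) ∧
      BadA (A i k) c κ c1 c2 i ⊆ ⋃ x ∈ S, Set.Icc x (x + ((2 : ℝ) ^ i) ^ (-(1 + 31 * κ / 16))) :=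
    fun k => hi0 (A i k) i hii0
  choose S hS1 hS2 using h5
  refine ⟨(Finset.range (M i)).biUnion S, ?_, ?_⟩
  · have hX0 : (0 : ℝ) < (2 : ℝ) ^ i := by positivity
    calc (((Finset.range (M i)).biUnion S).card : ℝ) ≤ ∑ k ∈ Finset.range (M i), ((S k).card : ℝ) := by
          exact_mod_cast Finset.card_biUnion_le
      _ ≤ ∑ k ∈ Finset.range (M i), ((2 : ℝ) ^ i) ^ (1 + 15 * κ / 8) :=
          Finset.sum_le_sum fun k _ => hS1 k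
      _ = (M i : ℝ) * ((2 : ℝ) ^ i) ^ (1 + 15 * κ / 8) := by
          rw [Finset.sum_const, Finset.card_range, nsmul_eq_mul]
      _ ≤ ((2 : ℝ) ^ i) ^ (κ / 128) * ((2 : ℝ) ^ i) ^ (1 + 15 * κ / 8) := by
          apply mul_le_mul_of_nonneg_right (hi2 i hii2) (by positivity)
      _ = ((2 : ℝ) ^ i) ^ (1 + 241 * κ / 128) := by
          rw [← Real.rpow_add hX0]
          congr 1
          ring
  · intro c hc
    simp only [Set.mem_iUnion, Finset.mem_range, exists_prop] at hc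
    obtain ⟨k, hk, hc⟩ := hc
    have h6 := hS2 k hc
    simp only [Set.mem_iUnion, exists_prop] at h6 ⊢
    obtain ⟨x, hx, hxc⟩ := h6
    exact ⟨x, Finset.mem_biUnion.mpr ⟨k, Finset.mem_range.mpr hk, hx⟩, hxc⟩

/-- **The law for families of sets, amplitudes.** -/
theorem famA : ∀ c : ℝ, 1 < c → ∃ κ : ℝ, 0 < κ ∧ κ ≤ 1 / (8 * c) ∧ ∀ (p : ℕ) (M : ℕ → ℕ),
    (∀ i, M i ≤ (i + 2) ^ p) → ∀ A : ℕ → ℕ → Set ℕ,
    ∃ E : Set ℝ, dimH E ≤ ENNReal.ofReal (1 - κ / 64) ∧ ∀ α : ℝ, 0 < α → α ∉ E →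
      ∃ i0 : ℕ, ∀ i : ℕ, i0 ≤ i → ∀ k < M i, ∀ y : ℕ, 2 ^ i ≤ y → y ≤ 2 ^ (i + 1) →
        |∑ m ∈ Ioc (2 ^ i) y, (ft (A i k) c α m - mt (A i k) c α m)| ≤
          (1 + 2 * α ^ (-(1 / c))) * ((2 : ℝ) ^ i) ^ (1 / c - κ / 4) := by
  intro c hc
  obtain ⟨κ, hκ0, hκ1, hκ⟩ := a12fam c hc.le
  have hκle : κ ≤ 1 := by
    refine hκ1.trans ?_
    rw [div_le_one (by linarith)]
    linarith
  refine ⟨κ, hκ0, hκ1, fun p M hM A => ?_⟩
  have hgr : ∀ᶠ i : ℕ in atTop, (M i : ℝ) ≤ ((2 : ℝ) ^ i) ^ (κ / 128) := by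
    filter_upwards [poly_growth p (κ / 128) (by positivity)] with i hi
    refine le_trans ?_ hi
    exact_mod_cast hM i
  have hpos : ∀ j : ℤ, (0 : ℝ) < (2 : ℝ) ^ j := fun j => zpow_pos (by norm_num) j
  have hdbl : ∀ j : ℤ, (2 : ℝ) ^ (j + 1) = 2 * (2 : ℝ) ^ j := fun j => by
    rw [zpow_add_one₀ (by norm_num)]
    ring
  have hle : ∀ j : ℤ, (2 : ℝ) ^ j ≤ (2 : ℝ) ^ (j + 1) := fun j => by
    rw [hdbl]
    linarith [hpos j]
  refine ⟨⋃ j : ℤ, {α : ℝ | ∀ i1 : ℕ, ∃ i : ℕ, i1 ≤ i ∧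
    α ∈ ⋃ k ∈ Finset.range (M i), BadA (A i k) c κ ((2 : ℝ) ^ j) ((2 : ℝ) ^ (j + 1)) i}, ?_, ?_⟩
  · rw [dimH_iUnion]
    refine iSup_le fun j => ?_
    obtain ⟨i0, hi0⟩ := hκ _ _ (hpos j) (hle j) (hdbl j).le M hgr
    exact w14b κ _ hκ0 hκle ⟨i0, fun i hi => hi0 A i hi⟩
  · intro α hα hE
    obtain ⟨j, hj1, hj2⟩ := exists_mem_Ico_zpow hα (show (1 : ℝ) < 2 by norm_num)
    have hmem : α ∈ Set.Icc ((2 : ℝ) ^ j) ((2 : ℝ) ^ (j + 1)) := ⟨hj1, hj2.le⟩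
    have hnot : ∃ i1 : ℕ, ∀ i : ℕ, i1 ≤ i → ∀ k < M i,
        α ∉ BadA (A i k) c κ ((2 : ℝ) ^ j) ((2 : ℝ) ^ (j + 1)) i := by
      by_contra hcon
      apply hE
      rw [Set.mem_iUnion]
      refine ⟨j, fun i1 => ?_⟩
      by_contra h
      apply hcon
      refine ⟨i1, fun i hi k hk hb => h ⟨i, hi, ?_⟩⟩
      simp only [Set.mem_iUnion, Finset.mem_range, exists_prop]
      exact ⟨k, hk, hb⟩
    obtain ⟨i1, hi1⟩ := hnot
    exact ⟨i1, fun i hi k hk => blockA c κ _ _ hc hκ0 hκ1 (hpos j) (A i k) α hmem i (hi1 i hi k hk)⟩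

/-- counting the `n` by the value of the integer part -/
lemma card_SA (A : Set ℕ) {c α : ℝ} (hc : 1 < c) (hα : 0 < α) {u v : ℕ} (S : Finset ℕ)
    (hS : ∀ n, n ∈ S ↔ 1 ≤ n ∧ u < ms α c n ∧ ms α c n ≤ v) [DecidablePred fun n => ms α c n ∈ A] :
    ((S.filter (fun n => ms α c n ∈ A)).card : ℝ) = ∑ m ∈ Ioc u v, ft A c α m := by
  classical
  have hmaps : ∀ n ∈ S.filter (fun n => ms α c n ∈ A), ms α c n ∈ Ioc u v := by
    intro n hn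
    rw [mem_filter] at hn
    have := (hS n).mp hn.1
    rw [mem_Ioc]
    exact ⟨this.2.1, this.2.2⟩
  rw [Finset.card_eq_sum_card_fiberwise hmaps]
  push_cast
  apply Finset.sum_congr rfl
  intro m hm
  rw [mem_Ioc] at hm
  unfold ft
  split_ifs with hA
  · congr 1
    obtain ⟨B, hB⟩ : ∃ B : ℕ, ∀ n ∈ S, n < B := ⟨S.sup id + 1, fun n hn => by
      have := Finset.le_sup (f := id) hn
      simp only [id] at this
      omega⟩
    rw [← rr_eq hα hc.le (m := m) (B := B)]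
    · congr 1
      ext n
      simp only [mem_filter, mem_Ico]
      constructor
      · rintro ⟨⟨h1, h2⟩, h3⟩
        exact ⟨⟨((hS n).mp h1).1, hB n h1⟩, h3⟩
      · rintro ⟨⟨h1, h2⟩, h3⟩
        have h4 : ms α c n = m := h3
        refine ⟨⟨(hS n).mpr ⟨h1, by omega, by omega⟩, by rw [h4]; exact hA⟩, h4⟩
    · intro n hn h3
      have h4 : ms α c n = m := h3
      exact hB n ((hS n).mpr ⟨hn, by omega, by omega⟩)
  · rw [Nat.cast_eq_zero, Finset.card_eq_zero]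
    apply Finset.filter_eq_empty_iff.mpr
    intro n hn h
    rw [mem_filter] at hn
    rw [h] at hn
    exact hA hn.2

/-- **The sampling hypothesis, amplitudes.** -/
theorem samp_amp (c : ℝ) (hc : 1 < c) : ∃ E : Set ℝ, dimH E < 1 ∧ ∀ α : ℝ, 0 < α → α ∉ E →
    ∃ κ : ℝ, 0 < κ ∧ Samp (ms α c) c (α ^ (-(1 / c))) κ := by
  classical
  obtain ⟨κ, hκ0, hκ1, hfam⟩ := famA c hc
  obtain ⟨E, hE, h⟩ := hfam 9 MM MM_le AA
  refine ⟨E, ?_, fun α hα hαE => ⟨κ / 4, by positivity, 2 * (1 + 2 * α ^ (-(1 / c))), by positivity, ?_⟩⟩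
  · refine lt_of_le_of_lt hE ?_
    have : (1 : ENNReal) = ENNReal.ofReal 1 := by simp
    rw [this]
    exact (ENNReal.ofReal_lt_ofReal_iff (by norm_num)).mpr (by linarith)
  obtain ⟨i1, h1⟩ := h α hα hαE
  refine ⟨i1, fun i hi1 k hk u v hu huv hv S hS => ?_⟩
  have h3 := h1 i hi1 k hk v (hu.trans huv) hv
  have h4 := h1 i hi1 k hk u hu (huv.trans hv)
  rw [← Finset.sum_Ioc_consecutive _ hu huv] at h3
  have h6 := card_SA (AA i k) hc hα S hS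
  have h7 : α ^ (-(1 / c)) * ∑ t ∈ (Ioc u v).filter (fun t => t ∈ AA i k), wt c t =
      ∑ m ∈ Ioc u v, mt (AA i k) c α m := by
    rw [Finset.mul_sum, Finset.sum_filter]
    apply Finset.sum_congr rfl
    intro m _
    unfold Pool.Agent.H706R2.PS.A13aux.mt wt
    split_ifs
    · ring
    · rfl
  rw [h6, h7, ← Finset.sum_sub_distrib]
  rw [abs_le] at h3 h4 ⊢
  constructor <;> linarith [h3.1, h3.2, h4.1, h4.2]

end Pool.Agent.Y854.PS
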