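import Pool.Agent.Y854.PS.Scale
import Pool.Agent.Y854.PS.Fam

/-! The sampling hypothesis for `n^c`, for all `c` outside a small set. -/

set_option autoImplicit false

open Finset Filter

namespace Pool.Agent.Y854.PS

open Pool.Agent.H706R2.PS

lemma Ax_split (A : Set ℕ) {X u v : ℕ} (h1 : X ≤ u) (h2 : u ≤ v) : Ax A X v = Ax A X u ∪ Ax A u v := by
  classical
  ext m
  unfold Ax
  simp only [mem_union, mem_filter, mem_Ioc]
  by_cases hm : m ≤ u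
  · constructor
    · rintro ⟨⟨a, b⟩, c⟩; exact Or.inl ⟨⟨a, hm⟩, c⟩
    · rintro (⟨⟨a, b⟩, c⟩ | ⟨⟨a, b⟩, c⟩)
      · exact ⟨⟨a, by omega⟩, c⟩
      · omega
  · constructor
    · rintro ⟨⟨a, b⟩, c⟩; exact Or.inr ⟨⟨by omega, b⟩, c⟩
    · rintro (⟨⟨a, b⟩, c⟩ | ⟨⟨a, b⟩, c⟩)
      · omega
      · exact ⟨⟨by omega, b⟩, c⟩

lemma Ax_disj (A : Set ℕ) {X u v : ℕ} : Disjoint (Ax A X u) (Ax A u v) := by
  classical
  rw [Finset.disjoint_left]
  intro m h1 h2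
  unfold Ax at h1 h2
  rw [mem_filter, mem_Ioc] at h1 h2
  omega

lemma mainT_split (A : Set ℕ) (c : ℝ) {X u v : ℕ} (h1 : X ≤ u) (h2 : u ≤ v) :
    mainT (Ax A X v) c = mainT (Ax A X u) c + mainT (Ax A u v) c := by
  unfold mainT
  rw [Ax_split A h1 h2, Finset.sum_union (Ax_disj A)]

lemma nPS_split (A : Set ℕ) (c : ℝ) {X u v : ℕ} (h1 : X ≤ u) (h2 : u ≤ v) :
    nPS A c X v = nPS A c X u + nPS A c u v := by
  classical
  unfold nPS
  rw [Ax_split A h1 h2, Finset.filter_union, Finset.card_union_of_disjoint]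
  · push_cast; ring
  · exact Finset.disjoint_filter_filter (Ax_disj A)

lemma card_S (A : Set ℕ) {c : ℝ} (hc : 1 < c) {i0 u v : ℕ} (hu : 2 ^ i0 ≤ u)
    (hstrict : ∀ n n', 2 ^ i0 < ms 1 c n → n < n' → ms 1 c n < ms 1 c n') (S : Finset ℕ)
    (hS : ∀ n, n ∈ S ↔ 1 ≤ n ∧ u < ms 1 c n ∧ ms 1 c n ≤ v) [DecidablePred fun n => ms 1 c n ∈ A] :
    ((S.filter (fun n => ms 1 c n ∈ A)).card : ℝ) = nPS A c u v := by
  classical
  unfold nPS
  have hms : ∀ n, ms 1 c n = ⌊(n : ℝ) ^ c⌋₊ := fun n => by unfold ms xs; rw [one_mul]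
  have himg : (S.filter (fun n => ms 1 c n ∈ A)).image (ms 1 c) =
      (Ax A u v).filter (fun m => ∃ k : ℕ, 1 ≤ k ∧ ⌊(k : ℝ) ^ c⌋₊ = m) := by
    ext m
    unfold Ax
    simp only [mem_image, mem_filter, mem_Ioc]
    constructor
    · rintro ⟨n, ⟨h1, h2⟩, rfl⟩
      obtain ⟨h3, h4, h5⟩ := (hS n).mp h1
      exact ⟨⟨⟨h4, h5⟩, h2⟩, n, h3, (hms n).symm⟩
    · rintro ⟨⟨⟨h1, h2⟩, h3⟩, k, h4, h5⟩
      rw [← hms] at h5
      refine ⟨k, ⟨(hS k).mpr ⟨h4, by omega, by omega⟩, by rw [h5]; exact h3⟩, h5⟩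
  rw [← himg, Finset.card_image_of_injOn]
  intro n hn n' hn' h
  simp only [coe_filter, Set.mem_setOf_eq] at hn hn'
  have h1 := (hS n).mp hn.1
  have h2 := (hS n').mp hn'.1
  rcases lt_trichotomy n n' with h3 | h3 | h3
  · have := hstrict n n' (by omega) h3
    omega
  · exact h3
  · have := hstrict n' n (by omega) h3
    omega

/-- **The sampling hypothesis.** -/
theorem samp_exp (C0 : ℝ) (hC0 : 1 ≤ C0) : ∃ E : Set ℝ, dimH E < 1 ∧ ∀ c : ℝ, 1 < c → c ≤ C0 → c ∉ E →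
    ∃ κ : ℝ, 0 < κ ∧ Samp (ms 1 c) c 1 κ := by
  classical
  obtain ⟨κ, hκ0, hκ1, hfam⟩ := fam C0 hC0
  obtain ⟨E, hE, h⟩ := hfam 9 MM MM_le AA
  refine ⟨E, ?_, fun c hc1 hc2 hcE => ⟨κ / 4, by positivity, 16, by norm_num, ?_⟩⟩
  · refine lt_of_le_of_lt hE ?_
    have : (1 : ENNReal) = ENNReal.ofReal 1 := by simp
    rw [this]
    exact (ENNReal.ofReal_lt_ofReal_iff (by norm_num)).mpr (by linarith)
  obtain ⟨i1, h1⟩ := h c hc1 hc2 hcE
  obtain ⟨i2, h2⟩ := ms_strict (α := 1) one_pos hc1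
  refine ⟨max i1 i2, fun i hi k hk u v hu huv hv S hS => ?_⟩
  have hi1 : i1 ≤ i := (le_max_left _ _).trans hi
  have hi2 : i2 ≤ i := (le_max_right _ _).trans hi
  have h3 := h1 i hi1 k hk v (hu.trans huv) hv
  have h4 := h1 i hi1 k hk u hu (huv.trans hv)
  rw [nPS_split _ c hu huv, mainT_split _ c hu huv] at h3
  have h5 : 2 ^ i2 ≤ u := (Nat.pow_le_pow_right (by norm_num) hi2).trans hu
  have h6 := card_S (AA i k) hc1 h5 h2 S hS
  have h7 : ∑ t ∈ (Ioc u v).filter (fun t => t ∈ AA i k), wt c t = mainT (Ax (AA i k) u v) c := by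
    unfold mainT Ax wt
    rfl
  rw [h6, h7, one_mul]
  rw [abs_le] at h3 h4 ⊢
  constructor <;> linarith [h3.1, h3.2, h4.1, h4.2]

end Pool.Agent.Y854.PS
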