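import Mathlib

/-! Abel's inequality on intervals of integers. -/

set_option autoImplicit false

open Finset

namespace Pool.Agent.Y854.PS

/-- Abel's inequality -/
lemma abel_ineq (d w : ℕ → ℝ) (B : ℝ) (u v : ℕ) (huv : u ≤ v)
    (hw0 : ∀ m, u < m → m ≤ v → 0 ≤ w m)
    (hw : ∀ m, u < m → m + 1 ≤ v → w (m + 1) ≤ w m)
    (hS : ∀ t, u ≤ t → t ≤ v → |∑ m ∈ Ioc u t, d m| ≤ B) :
    |∑ m ∈ Ioc u v, d m * w m| ≤ B * w (u + 1) ∨ u = v := by
  rcases huv.eq_or_lt with h | h
  · exact Or.inr h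
  left
  have key : ∀ t, u + 1 ≤ t → t ≤ v →
      |∑ m ∈ Ioc u t, d m * w m - (∑ m ∈ Ioc u t, d m) * w t| ≤ B * (w (u + 1) - w t) := by
    intro t ht
    induction t, ht using Nat.le_induction with
    | base =>
      intro _
      have e : Ioc u (u + 1) = {u + 1} := by
        ext x; simp only [mem_Ioc, mem_singleton]; omega
      rw [e]
      simp
    | succ t ht ih =>
      intro htv
      have h1 := ih (by omega)
      have e : Ioc u (t + 1) = insert (t + 1) (Ioc u t) := by
        ext x; simp only [mem_Ioc, mem_insert]; omega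
      have hni : t + 1 ∉ Ioc u t := by simp
      rw [e, sum_insert hni, sum_insert hni]
      have h2 := hw t (by omega) htv
      have h3 := hS t (by omega) (by omega)
      have e2 : d (t + 1) * w (t + 1) + ∑ m ∈ Ioc u t, d m * w m -
          (d (t + 1) + ∑ m ∈ Ioc u t, d m) * w (t + 1) =
          (∑ m ∈ Ioc u t, d m * w m - (∑ m ∈ Ioc u t, d m) * w t) +
            (∑ m ∈ Ioc u t, d m) * (w t - w (t + 1)) := by ring
      rw [e2]
      refine (abs_add_le _ _).trans ?_
      rw [abs_mul, abs_of_nonneg (by linarith : 0 ≤ w t - w (t + 1))]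
      have h4 : |∑ m ∈ Ioc u t, d m| * (w t - w (t + 1)) ≤ B * (w t - w (t + 1)) :=
        mul_le_mul_of_nonneg_right h3 (by linarith)
      linarith
  have h1 := key v h le_rfl
  have h2 := hS v huv le_rfl
  have h3 := hw0 v h le_rfl
  have e : ∑ m ∈ Ioc u v, d m * w m = (∑ m ∈ Ioc u v, d m * w m - (∑ m ∈ Ioc u v, d m) * w v) +
      (∑ m ∈ Ioc u v, d m) * w v := by ring
  rw [e]
  refine (abs_add_le _ _).trans ?_
  rw [abs_mul, abs_of_nonneg h3]
  have h4 : |∑ m ∈ Ioc u v, d m| * w v ≤ B * w v := mul_le_mul_of_nonneg_right h2 h3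
  linarith

end Pool.Agent.Y854.PS
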