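import Pool.Agent.Y854.PS.Layer
import Pool.Agent.Y854.PS.Fam

/-! The average over one interval of the sequence. -/

set_option autoImplicit false

open Finset Filter

namespace Pool.Agent.Y854.PS

lemma sum_wt_le {c : ℝ} (hc : 1 < c) {i u v : ℕ} (hu : 2 ^ i ≤ u) (hv : v ≤ 2 ^ (i + 1)) :
    ∑ t ∈ Ioc u v, wt c t ≤ ((2 : ℝ) ^ i) ^ (1 / c) := by
  have hX : (0 : ℝ) < (2 : ℝ) ^ i := by positivity
  have h1 : ∀ t ∈ Ioc u v, wt c t ≤ ((2 : ℝ) ^ i) ^ (1 / c) / (2 : ℝ) ^ i := by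
    intro t ht
    rw [mem_Ioc] at ht
    have := wt_le hc (X := 2 ^ i) (m := t) (by positivity) (by omega)
    push_cast at this
    exact this
  refine (Finset.sum_le_sum h1).trans ?_
  rw [sum_const, Nat.card_Ioc, nsmul_eq_mul]
  have h2 : v - u ≤ 2 ^ i := by rw [pow_succ] at hv; omega
  have h3 : ((v - u : ℕ) : ℝ) ≤ (2 : ℝ) ^ i := by exact_mod_cast h2
  have h4 : 0 ≤ ((2 : ℝ) ^ i) ^ (1 / c) / (2 : ℝ) ^ i := by positivity
  calc ((v - u : ℕ) : ℝ) * (((2 : ℝ) ^ i) ^ (1 / c) / (2 : ℝ) ^ i) ≤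
      (2 : ℝ) ^ i * (((2 : ℝ) ^ i) ^ (1 / c) / (2 : ℝ) ^ i) := mul_le_mul_of_nonneg_right h3 h4
    _ = _ := by field_simp

lemma log_two_pow_ge {i : ℕ} (hi : 1 ≤ i) : ((i : ℝ) + 2) / 6 ≤ Real.log ((2 : ℝ) ^ i) := by
  rw [Real.log_pow]
  have h1 := Real.log_two_gt_d9
  have h2 : (1 : ℝ) ≤ i := by exact_mod_cast hi
  nlinarith

/-- the average over one interval -/
theorem bucket (m : ℕ → ℕ) (c a κ : ℝ) (hc : 1 < c) (ha : 0 < a) (hκ : 0 < κ) (hS : Samp m c a κ) :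
    ∃ C : ℝ, 0 < C ∧ ∃ i0 : ℕ, ∀ i, i0 ≤ i → ∀ s < 2 * (i + 2) ^ 2, 0 < hs i s →
      (hs i s : ℝ) ≤ (2 : ℝ) ^ i / Real.log ((2 : ℝ) ^ i) ^ 5 →
      ∀ u v, 2 ^ i ≤ u → u ≤ v → v ≤ 2 ^ (i + 1) →
      ∀ S : Finset ℕ, (∀ n, n ∈ S ↔ 1 ≤ n ∧ u < m n ∧ m n ≤ v) →
        |∑ n ∈ S, gf (hs i s) (m n) - S.card| ≤ C * ((2 : ℝ) ^ i) ^ (1 / c) / ((i : ℝ) + 2) ^ 4 := by
  classical
  obtain ⟨C1, hC1, i1, h1⟩ := hS
  obtain ⟨C2, hC2, X0, hX0, h2⟩ := main_sum c hc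
  obtain ⟨i2, hi2⟩ := (poly_growth 5 κ hκ).exists_forall_of_atTop
  refine ⟨2 * a + 3 * C1 + 1296 * a * C2, by positivity, max (max i1 X0) (max i2 1), ?_⟩
  intro i hi s hs1 hh0 hh u v hu huv hv S hSm
  have hii1 : i1 ≤ i := ((le_max_left _ _).trans (le_max_left _ _)).trans hi
  have hiX0 : X0 ≤ i := ((le_max_right _ _).trans (le_max_left _ _)).trans hi
  have hii2 : i2 ≤ i := ((le_max_left _ _).trans (le_max_right _ _)).trans hi
  have hi1 : 1 ≤ i := ((le_max_right _ _).trans (le_max_right _ _)).trans hi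
  set X : ℝ := (2 : ℝ) ^ i with hX
  have hXpos : 0 < X := by positivity
  set h := hs i s with hh'
  set W : ℝ := ∑ t ∈ Ioc u v, wt c t with hW
  set Q : ℝ := X ^ (1 / c) with hQ
  have hQpos : 0 < Q := Real.rpow_pos_of_pos hXpos _
  set D : ℝ := ((i : ℝ) + 2) ^ 4 with hD
  have hDpos : 0 < D := by positivity
  have hWle : W ≤ Q := sum_wt_le hc hu hv
  have hW0 : 0 ≤ W := Finset.sum_nonneg fun t _ => wt_nonneg hc t
  -- power saving
  have hpow : X ^ (1 / c - κ) ≤ Q / ((i : ℝ) + 2) ^ 5 := by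
    have h3 := hi2 i hii2
    rw [Real.rpow_sub hXpos]
    exact div_le_div_of_nonneg_left hQpos.le (by positivity) h3
  have hpow1 : X ^ (1 / c - κ) ≤ Q / D := by
    refine hpow.trans ?_
    apply div_le_div_of_nonneg_left hQpos.le hDpos
    rw [hD]
    apply pow_le_pow_right₀ _ (by norm_num)
    linarith [Nat.cast_nonneg (α := ℝ) i]
  have hpow2 : ((i : ℝ) + 2) * X ^ (1 / c - κ) ≤ Q / D := by
    have h3 : (0 : ℝ) < (i : ℝ) + 2 := by positivity
    calc ((i : ℝ) + 2) * X ^ (1 / c - κ) ≤ ((i : ℝ) + 2) * (Q / ((i : ℝ) + 2) ^ 5) :=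
          mul_le_mul_of_nonneg_left hpow h3.le
      _ = Q / D := by rw [hD]; field_simp
  have hpow3 : X ^ (1 / c - κ) ≤ Q := by
    refine hpow1.trans ?_
    rw [div_le_iff₀ hDpos]
    have : 1 ≤ D := by
      rw [hD]
      apply one_le_pow₀
      linarith [Nat.cast_nonneg (α := ℝ) i]
    nlinarith
  -- the number of elements
  have hcard : |(S.card : ℝ) - a * W| ≤ C1 * X ^ (1 / c - κ) := by
    have h3 := h1 i hii1 0 (by unfold MM; omega) u v hu huv hv S hSm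
    rw [AA_zero] at h3
    simpa using h3
  have hcard' : (S.card : ℝ) ≤ (a + C1) * Q := by
    have h3 := (abs_le.mp hcard).2
    have h4 : a * W ≤ a * Q := mul_le_mul_of_nonneg_left hWle ha.le
    have h5 : C1 * X ^ (1 / c - κ) ≤ C1 * Q := mul_le_mul_of_nonneg_left hpow3 hC1.le
    linarith
  -- the layers
  have hr : ∀ r ∈ range (Rr i), |((S.filter (fun n => (r : ℝ) + 1 ≤ (Lr i : ℝ) * gf h (m n))).card : ℝ) -
      a * ∑ t ∈ (Ioc u v).filter (fun t => (r : ℝ) + 1 ≤ (Lr i : ℝ) * gf h t), wt c t| ≤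
        C1 * X ^ (1 / c - κ) := by
    intro r hr
    rw [mem_range] at hr
    have h3 := h1 i hii1 (s * Rr i + r + 1) (idx_lt i s r hr hs1) u v hu huv hv S hSm
    rw [AA_succ i s r hr] at h3
    exact h3
  have hLS := layer S (fun _ => (1 : ℝ)) (fun n => gf h (m n)) (Lr i) (Rr i) (Lr_pos i)
    (fun _ _ => zero_le_one) (fun n _ => gf_nonneg _ _)
    (fun n hn => LR hh0 (((hSm n).mp hn).2.2.trans hv))
  have hLI := layer (Ioc u v) (wt c) (gf h) (Lr i) (Rr i) (Lr_pos i)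
    (fun t _ => wt_nonneg hc t) (fun n _ => gf_nonneg _ _)
    (fun n hn => LR hh0 ((mem_Ioc.mp hn).2.trans hv))
  simp only [one_mul, sum_const, nsmul_eq_mul, mul_one] at hLS
  -- the main term
  have hmain : |∑ t ∈ Ioc u v, wt c t * gf h t - W| ≤ 1296 * C2 * (Q / D) := by
    have h3 := h2 (2 ^ i) (hiX0.trans (Nat.lt_two_pow_self).le) u v h hu huv
      (by rw [pow_succ] at hv; omega) (by push_cast; exact hh)
    push_cast at h3
    have hhpos : (0 : ℝ) < h := by exact_mod_cast hh0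
    have e : ∑ t ∈ Ioc u v, wt c t * gf h t - W =
        (1 / (h : ℝ)) * (∑ m ∈ Ioc u v, (wt c m * Real.log m) * (((Ioc m (m + h)).filter Nat.Prime).card : ℝ) -
          h * ∑ m ∈ Ioc u v, wt c m) := by
      rw [mul_sub, Finset.mul_sum, ← mul_assoc, one_div_mul_cancel hhpos.ne', one_mul]
      congr 1
      apply Finset.sum_congr rfl
      intro t _
      unfold gf pcn
      field_simp
    rw [e, abs_mul, abs_of_pos (by positivity : 0 < 1 / (h : ℝ))]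
    have h4 : (1 / (h : ℝ)) * (C2 * h * Q / Real.log X ^ 4) = C2 * Q / Real.log X ^ 4 := by
      field_simp
    refine (mul_le_mul_of_nonneg_left h3 (by positivity)).trans ?_
    rw [← hX, ← hQ, h4]
    have h5 := log_two_pow_ge hi1
    rw [← hX] at h5
    have h6 : D / 1296 ≤ Real.log X ^ 4 := by
      have h7 : (((i : ℝ) + 2) / 6) ^ 4 ≤ Real.log X ^ 4 := pow_le_pow_left₀ (by positivity) h5 4
      calc D / 1296 = (((i : ℝ) + 2) / 6) ^ 4 := by rw [hD]; ring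
        _ ≤ _ := h7
    calc C2 * Q / Real.log X ^ 4 ≤ C2 * Q / (D / 1296) := by
          apply div_le_div_of_nonneg_left (by positivity) (by positivity) h6
      _ = 1296 * C2 * (Q / D) := by field_simp
  -- the sum over the layers
  have hsumr : |(1 / (Lr i : ℝ)) * ∑ r ∈ range (Rr i), ((S.filter (fun n => (r : ℝ) + 1 ≤ (Lr i : ℝ) * gf h (m n))).card : ℝ) -
      a * ((1 / (Lr i : ℝ)) * ∑ r ∈ range (Rr i), ∑ t ∈ (Ioc u v).filter (fun t => (r : ℝ) + 1 ≤ (Lr i : ℝ) * gf h t), wt c t)| ≤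
      C1 * (Q / D) := by
    have e : (1 / (Lr i : ℝ)) * ∑ r ∈ range (Rr i), ((S.filter (fun n => (r : ℝ) + 1 ≤ (Lr i : ℝ) * gf h (m n))).card : ℝ) -
      a * ((1 / (Lr i : ℝ)) * ∑ r ∈ range (Rr i), ∑ t ∈ (Ioc u v).filter (fun t => (r : ℝ) + 1 ≤ (Lr i : ℝ) * gf h t), wt c t) =
      (1 / (Lr i : ℝ)) * ∑ r ∈ range (Rr i), (((S.filter (fun n => (r : ℝ) + 1 ≤ (Lr i : ℝ) * gf h (m n))).card : ℝ) -
        a * ∑ t ∈ (Ioc u v).filter (fun t => (r : ℝ) + 1 ≤ (Lr i : ℝ) * gf h t), wt c t) := by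
      rw [Finset.sum_sub_distrib, ← Finset.mul_sum]
      ring
    have hLpos : (0 : ℝ) < Lr i := by exact_mod_cast Lr_pos i
    rw [e, abs_mul, abs_of_pos (by positivity : 0 < 1 / (Lr i : ℝ))]
    calc (1 / (Lr i : ℝ)) * _ ≤ (1 / (Lr i : ℝ)) * ∑ r ∈ range (Rr i), C1 * X ^ (1 / c - κ) := by
          apply mul_le_mul_of_nonneg_left _ (by positivity)
          exact (Finset.abs_sum_le_sum_abs _ _).trans (Finset.sum_le_sum hr)
      _ = C1 * (((i : ℝ) + 2) * X ^ (1 / c - κ)) := by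
          rw [sum_const, card_range, nsmul_eq_mul]
          unfold Lr Rr
          push_cast
          field_simp
      _ ≤ C1 * (Q / D) := mul_le_mul_of_nonneg_left hpow2 hC1.le
  have hLD : (1 / (Lr i : ℝ)) = 1 / D := by
    unfold Lr; rw [hD]; push_cast; rfl
  rw [hLD] at hLS hLI hsumr
  set P1 := ∑ n ∈ S, gf h (m n) with hP1
  set P2 := (1 / D) * ∑ r ∈ range (Rr i), ((S.filter (fun n => (r : ℝ) + 1 ≤ (Lr i : ℝ) * gf h (m n))).card : ℝ) with hP2
  set P3 := (1 / D) * ∑ r ∈ range (Rr i), ∑ t ∈ (Ioc u v).filter (fun t => (r : ℝ) + 1 ≤ (Lr i : ℝ) * gf h t), wt c t with hP3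
  set P4 := ∑ t ∈ Ioc u v, wt c t * gf h t with hP4
  have hb1 : |P1 - P2| ≤ (a + C1) * (Q / D) := by
    refine hLS.trans ?_
    calc 1 / D * (S.card : ℝ) ≤ 1 / D * ((a + C1) * Q) := mul_le_mul_of_nonneg_left hcard' (by positivity)
      _ = (a + C1) * (Q / D) := by ring
  have hb2 : |a * (P3 - P4)| ≤ a * (Q / D) := by
    rw [abs_mul, abs_of_pos ha, abs_sub_comm]
    apply mul_le_mul_of_nonneg_left _ ha.le
    refine hLI.trans ?_
    calc 1 / D * W ≤ 1 / D * Q := mul_le_mul_of_nonneg_left hWle (by positivity)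
      _ = Q / D := by ring
  have hb3 : |a * (P4 - W)| ≤ a * (1296 * C2 * (Q / D)) := by
    rw [abs_mul, abs_of_pos ha]
    exact mul_le_mul_of_nonneg_left hmain ha.le
  have hb4 : |a * W - S.card| ≤ C1 * (Q / D) := by
    rw [abs_sub_comm]
    exact hcard.trans (mul_le_mul_of_nonneg_left hpow1 hC1.le)
  have e : P1 - S.card = (P1 - P2) + (P2 - a * P3) + a * (P3 - P4) + a * (P4 - W) + (a * W - S.card) := by ring
  rw [e]
  have t1 := abs_add_le ((P1 - P2) + (P2 - a * P3) + a * (P3 - P4) + a * (P4 - W)) (a * W - S.card)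
  have t2 := abs_add_le ((P1 - P2) + (P2 - a * P3) + a * (P3 - P4)) (a * (P4 - W))
  have t3 := abs_add_le ((P1 - P2) + (P2 - a * P3)) (a * (P3 - P4))
  have t4 := abs_add_le (P1 - P2) (P2 - a * P3)
  have e2 : (2 * a + 3 * C1 + 1296 * a * C2) * Q / D = (a + C1) * (Q / D) + C1 * (Q / D) + a * (Q / D) +
      a * (1296 * C2 * (Q / D)) + C1 * (Q / D) := by ring
  rw [e2]
  linarith

end Pool.Agent.Y854.PS
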