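import Pool.Agent.Y854.PS.Layer

/-! The grid of lengths. -/

set_option autoImplicit false

open Finset Filter

namespace Pool.Agent.Y854.PS

/-- number of primes in `(x, x + H]` -/
noncomputable def pr (x H : ℝ) : ℝ := (((Ioc ⌊x⌋₊ ⌊x + H⌋₊).filter Nat.Prime).card : ℝ)

/-- number of primes in `(x, x + H]` divided by `H / log x` -/
noncomputable def ff (x H : ℝ) : ℝ := pr x H * Real.log x / H

lemma pr_nonneg (x H : ℝ) : 0 ≤ pr x H := Nat.cast_nonneg _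

lemma hg_pos (i j : ℕ) : 0 < hg i j := Real.rpow_pos_of_pos (by norm_num) _

lemma hg_succ (i j : ℕ) : hg i (j + 1) = hg i j * (2 : ℝ) ^ (1 / ((i : ℝ) + 1)) := by
  unfold hg
  rw [← Real.rpow_add (by norm_num)]
  congr 1
  push_cast
  ring

lemma two_rpow_le (i : ℕ) : (2 : ℝ) ^ (1 / ((i : ℝ) + 1)) ≤ 1 + 1 / ((i : ℝ) + 1) := by
  have h0 : 0 ≤ 1 / ((i : ℝ) + 1) := by positivity
  have h1 : 1 / ((i : ℝ) + 1) ≤ 1 := by
    rw [div_le_one (by positivity)]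
    linarith [Nat.cast_nonneg (α := ℝ) i]
  have h := rpow_one_add_le_one_add_mul_self (s := 1) (by norm_num) h0 h1
  rw [show (1 : ℝ) + 1 = 2 by norm_num, mul_one] at h
  exact h

lemma one_le_two_rpow (i : ℕ) : 1 ≤ (2 : ℝ) ^ (1 / ((i : ℝ) + 1)) :=
  Real.one_le_rpow (by norm_num) (by positivity)

/-- the index of a length -/
noncomputable def jj (i : ℕ) (H : ℝ) : ℕ := ⌊((i : ℝ) + 1) * Real.logb 2 H⌋₊

lemma logb_nonneg' {H : ℝ} (hH : 1 ≤ H) : 0 ≤ Real.logb 2 H := Real.logb_nonneg (by norm_num) hH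

lemma hg_jj_le {i : ℕ} {H : ℝ} (hH : 1 ≤ H) : hg i (jj i H) ≤ H := by
  unfold hg
  rw [← Real.le_logb_iff_rpow_le (by norm_num) (by linarith)]
  have hi : (0 : ℝ) < (i : ℝ) + 1 := by positivity
  rw [div_le_iff₀ hi, mul_comm]
  exact Nat.floor_le (mul_nonneg hi.le (logb_nonneg' hH))

lemma lt_hg_jj {i : ℕ} {H : ℝ} (hH : 1 ≤ H) : H < hg i (jj i H + 1) := by
  unfold hg
  rw [← Real.logb_lt_iff_lt_rpow (by norm_num) (by linarith)]
  have hi : (0 : ℝ) < (i : ℝ) + 1 := by positivity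
  rw [lt_div_iff₀ hi, mul_comm]
  push_cast
  exact Nat.lt_floor_add_one _

lemma jj_mono {i : ℕ} {H H' : ℝ} (hH : 1 ≤ H) (h : H ≤ H') : jj i H ≤ jj i H' := by
  unfold jj
  apply Nat.floor_le_floor
  apply mul_le_mul_of_nonneg_left _ (by positivity)
  exact Real.logb_le_logb_of_le (by norm_num) (by linarith) h

lemma jj_le {i : ℕ} {H : ℝ} (hH : 1 ≤ H) (h : H ≤ (2 : ℝ) ^ i) : jj i H ≤ (i + 1) * i := by
  unfold jj
  apply Nat.floor_le_of_le
  push_cast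
  apply mul_le_mul_of_nonneg_left _ (by positivity)
  have h1 : Real.logb 2 H ≤ Real.logb 2 ((2 : ℝ) ^ i) := Real.logb_le_logb_of_le (by norm_num) (by linarith) h
  refine h1.trans ?_
  rw [Real.logb_pow, Real.logb_self_eq_one (by norm_num), mul_one]

lemma pcn_le_pr {x H : ℝ} {h : ℕ} (hx : 0 ≤ x) (hh : (h : ℝ) ≤ H) : (pcn ⌊x⌋₊ h : ℝ) ≤ pr x H := by
  unfold pcn pr
  have h1 : ⌊x⌋₊ + h ≤ ⌊x + H⌋₊ := by
    apply Nat.le_floor
    push_cast
    have := Nat.floor_le hx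
    linarith
  have h2 : (Ioc ⌊x⌋₊ (⌊x⌋₊ + h)).filter Nat.Prime ⊆ (Ioc ⌊x⌋₊ ⌊x + H⌋₊).filter Nat.Prime := by
    intro p hp
    rw [mem_filter, mem_Ioc] at hp ⊢
    exact ⟨⟨hp.1.1, hp.1.2.trans h1⟩, hp.2⟩
  exact_mod_cast Finset.card_le_card h2

lemma pr_le_pcn {x H H' : ℝ} (hx : 0 ≤ x) (hH : 0 ≤ H) (hh : H ≤ H') :
    pr x H ≤ (pcn ⌊x⌋₊ (⌊H'⌋₊ + 1) : ℝ) := by
  unfold pcn pr
  have h1 : ⌊x + H⌋₊ ≤ ⌊x⌋₊ + (⌊H'⌋₊ + 1) := by
    have h2 : ⌊x + H⌋₊ < ⌊x⌋₊ + (⌊H'⌋₊ + 1) + 1 := by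
      rw [Nat.floor_lt (by linarith)]
      push_cast
      have h3 := Nat.lt_floor_add_one x
      have h4 := Nat.lt_floor_add_one H'
      linarith
    omega
  have h2 : (Ioc ⌊x⌋₊ ⌊x + H⌋₊).filter Nat.Prime ⊆ (Ioc ⌊x⌋₊ (⌊x⌋₊ + (⌊H'⌋₊ + 1))).filter Nat.Prime := by
    intro p hp
    rw [mem_filter, mem_Ioc] at hp ⊢
    exact ⟨⟨hp.1.1, hp.1.2.trans h1⟩, hp.2⟩
  exact_mod_cast Finset.card_le_card h2

lemma hs_low (i j : ℕ) : hs i (2 * j) = ⌊hg i j⌋₊ := by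
  unfold hs
  simp

lemma hs_up (i j : ℕ) : hs i (2 * (j + 1) + 1) = ⌊hg i (j + 1)⌋₊ + 1 := by
  unfold hs
  have h1 : (2 * (j + 1) + 1) / 2 = j + 1 := by omega
  have h2 : (2 * (j + 1) + 1) % 2 = 1 := by omega
  rw [h1, h2]

/-- comparison with the grid -/
lemma sandwich (η : ℝ) (hη0 : 0 < η) (hη1 : η < 1) : ∃ K0 : ℝ, 4 ≤ K0 ∧ ∃ i0 : ℕ, ∀ i : ℕ, i0 ≤ i →
    ∀ x H : ℝ, K0 ≤ H → (2 : ℝ) ^ i ≤ ⌊x⌋₊ →
      (1 - η) * gf (hs i (2 * jj i H)) ⌊x⌋₊ ≤ ff x H ∧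
      ff x H ≤ (1 + η) * gf (hs i (2 * (jj i H + 1) + 1)) ⌊x⌋₊ := by
  obtain ⟨i1, hi1⟩ := exists_nat_ge (16 / η)
  refine ⟨max 4 (16 / η), le_max_left _ _, max i1 4, fun i hi x H hH hx => ?_⟩
  have hii1 : i1 ≤ i := (le_max_left _ _).trans hi
  have hi4 : 4 ≤ i := (le_max_right _ _).trans hi
  have hH4 : 4 ≤ H := (le_max_left _ _).trans hH
  have hHη : 16 / η ≤ H := (le_max_right _ _).trans hH
  have hH1 : 1 ≤ H := by linarith
  have hHpos : 0 < H := by linarith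
  have hi16 : (16 : ℝ) ≤ (2 : ℝ) ^ i := by
    calc (16 : ℝ) = 2 ^ 4 := by norm_num
      _ ≤ 2 ^ i := pow_le_pow_right₀ (by norm_num) hi4
  set m := ⌊x⌋₊ with hm
  have hm16 : (16 : ℝ) ≤ m := hi16.trans hx
  have hx0 : 0 ≤ x := by
    by_contra hcon
    push Not at hcon
    have : m = 0 := Nat.floor_of_nonpos hcon.le
    rw [this] at hm16
    norm_num at hm16
  have hmx : (m : ℝ) ≤ x := Nat.floor_le hx0
  have hxm : x < m + 1 := Nat.lt_floor_add_one x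
  have hlogm : 1 ≤ Real.log m := by
    rw [Real.le_log_iff_exp_le (by linarith)]
    have := Real.exp_one_lt_d9
    linarith
  set j := jj i H with hj
  have a1 : hg i j ≤ H := hg_jj_le hH1
  have a2 : H < hg i (j + 1) := lt_hg_jj hH1
  have a3 := hg_succ i j
  have a4 := two_rpow_le i
  have a5 := one_le_two_rpow i
  have a0 := hg_pos i j
  set T := (2 : ℝ) ^ (1 / ((i : ℝ) + 1)) with hT
  have hiη : 1 / ((i : ℝ) + 1) ≤ η / 16 := by
    have h1 : 16 / η ≤ (i : ℝ) := hi1.trans (by exact_mod_cast hii1)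
    rw [div_le_iff₀ hη0] at h1
    rw [div_le_iff₀ (by positivity)]
    nlinarith
  have hTη : T ≤ 1 + η / 16 := by linarith
  have hT2 : T ≤ 2 := by linarith
  have hgη : 8 / η ≤ hg i j := by
    have h1 : 16 / η ≤ hg i j * 2 := by
      calc 16 / η ≤ H := hHη
        _ ≤ hg i j * T := by rw [← a3]; exact a2.le
        _ ≤ hg i j * 2 := mul_le_mul_of_nonneg_left hT2 a0.le
    have h2 : 16 / η = 2 * (8 / η) := by ring
    linarith
  have hgη' : 1 ≤ (η / 8) * hg i j := by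
    rw [div_le_iff₀ hη0] at hgη
    linarith
  have hfl := Nat.lt_floor_add_one (hg i j)
  have hfl2 := Nat.floor_le a0.le
  have hg2 : 2 ≤ hg i j := by nlinarith
  have hfpos : (0 : ℝ) < ⌊hg i j⌋₊ := by linarith
  have hg1pos : 0 < hg i (j + 1) := hg_pos _ _
  constructor
  · rw [hs_low]
    unfold gf ff
    have h1 := pcn_le_pr (h := ⌊hg i j⌋₊) hx0 (hfl2.trans a1)
    have h2 : Real.log m ≤ Real.log x := Real.log_le_log (by linarith) hmx
    have h3 : (pcn m ⌊hg i j⌋₊ : ℝ) * Real.log m ≤ pr x H * Real.log x :=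
      mul_le_mul h1 h2 (by linarith) (pr_nonneg _ _)
    have h4 : (pcn m ⌊hg i j⌋₊ : ℝ) * Real.log m / hg i (j + 1) ≤ pr x H * Real.log x / H :=
      div_le_div₀ (mul_nonneg (pr_nonneg _ _) (by linarith)) h3 hHpos a2.le
    refine le_trans ?_ h4
    have h5 : (1 - η) * hg i (j + 1) ≤ ⌊hg i j⌋₊ := by
      rw [a3]
      have h6 : (1 - η) * (hg i j * T) ≤ (1 - η) * (hg i j * (1 + η / 16)) := by
        apply mul_le_mul_of_nonneg_left _ (by linarith)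
        exact mul_le_mul_of_nonneg_left hTη a0.le
      have h7 : (1 - η) * (hg i j * (1 + η / 16)) ≤ (1 - η / 8) * hg i j := by
        have : (1 - η) * (1 + η / 16) ≤ 1 - η / 8 := by nlinarith
        calc (1 - η) * (hg i j * (1 + η / 16)) = ((1 - η) * (1 + η / 16)) * hg i j := by ring
          _ ≤ _ := mul_le_mul_of_nonneg_right this a0.le
      linarith
    have h8 : 0 ≤ (pcn m ⌊hg i j⌋₊ : ℝ) * Real.log m := mul_nonneg (Nat.cast_nonneg _) (by linarith)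
    rw [le_div_iff₀ hg1pos]
    calc (1 - η) * ((pcn m ⌊hg i j⌋₊ : ℝ) * Real.log m / ⌊hg i j⌋₊) * hg i (j + 1) =
        ((pcn m ⌊hg i j⌋₊ : ℝ) * Real.log m) * (((1 - η) * hg i (j + 1)) / ⌊hg i j⌋₊) := by ring
      _ ≤ ((pcn m ⌊hg i j⌋₊ : ℝ) * Real.log m) * 1 := by
          apply mul_le_mul_of_nonneg_left _ h8
          rw [div_le_one hfpos]
          exact h5
      _ = _ := mul_one _
  · rw [hs_up]
    unfold gf ff
    have h1 := pr_le_pcn hx0 hHpos.le a2.le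
    rw [← hm] at h1
    have h2 : Real.log x ≤ Real.log m + 1 / m := by
      have h3 : Real.log x ≤ Real.log ((m : ℝ) * (1 + 1 / m)) := by
        apply Real.log_le_log (by linarith)
        have : (m : ℝ) * (1 + 1 / m) = m + 1 := by field_simp
        rw [this]
        exact hxm.le
      rw [Real.log_mul (by linarith) (by positivity)] at h3
      have h4 := Real.log_le_sub_one_of_pos (show 0 < 1 + 1 / (m : ℝ) by positivity)
      linarith
    have h3 : (1 : ℝ) / m ≤ (η / 8) * Real.log m := by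
      have h4 : (i : ℝ) + 1 ≤ m := by
        refine le_trans ?_ hx
        have := (Nat.lt_two_pow_self (n := i))
        exact_mod_cast this
      calc (1 : ℝ) / m ≤ 1 / ((i : ℝ) + 1) := one_div_le_one_div_of_le (by positivity) h4
        _ ≤ η / 16 := hiη
        _ ≤ (η / 8) * 1 := by linarith
        _ ≤ _ := mul_le_mul_of_nonneg_left hlogm (by positivity)
    have h4 : pr x H * Real.log x ≤ (pcn m (⌊hg i (j + 1)⌋₊ + 1) : ℝ) * ((1 + η / 8) * Real.log m) := by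
      apply mul_le_mul h1 (by linarith) _ (Nat.cast_nonneg _)
      apply Real.log_nonneg
      linarith
    have hnn : 0 ≤ (pcn m (⌊hg i (j + 1)⌋₊ + 1) : ℝ) * ((1 + η / 8) * Real.log m) :=
      mul_nonneg (Nat.cast_nonneg _) (by positivity)
    have h5 : pr x H * Real.log x / H ≤
        (pcn m (⌊hg i (j + 1)⌋₊ + 1) : ℝ) * ((1 + η / 8) * Real.log m) / hg i j :=
      div_le_div₀ hnn h4 a0 a1
    refine h5.trans ?_
    obtain ⟨h', hh'⟩ : ∃ h' : ℕ, h' = ⌊hg i (j + 1)⌋₊ + 1 := ⟨_, rfl⟩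
    rw [← hh']
    clear h5 hnn h4 h1
    have h'pos : (0 : ℝ) < (h' : ℝ) := by rw [hh']; positivity
    have h6 : (h' : ℝ) ≤ (1 + η / 4) * hg i j := by
      rw [hh']
      push_cast
      have h7 := Nat.floor_le hg1pos.le
      rw [a3] at h7
      rw [a3]
      have h8 : hg i j * T ≤ hg i j * (1 + η / 16) := mul_le_mul_of_nonneg_left hTη a0.le
      nlinarith
    have h9 : (1 + η / 8) * (1 + η / 4) ≤ 1 + η := by nlinarith
    rw [div_le_iff₀ a0]
    have hnn2 : 0 ≤ (pcn m h' : ℝ) * Real.log m := mul_nonneg (Nat.cast_nonneg _) (by linarith)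
    have h10 : (1 + η / 8) ≤ (1 + η) * (hg i j / h') := by
      rw [← mul_div_assoc, le_div_iff₀ h'pos]
      calc (1 + η / 8) * (h' : ℝ) ≤ (1 + η / 8) * ((1 + η / 4) * hg i j) :=
            mul_le_mul_of_nonneg_left h6 (by positivity)
        _ = ((1 + η / 8) * (1 + η / 4)) * hg i j := by ring
        _ ≤ (1 + η) * hg i j := mul_le_mul_of_nonneg_right h9 a0.le
    calc (pcn m h' : ℝ) * ((1 + η / 8) * Real.log m) = ((pcn m h' : ℝ) * Real.log m) * (1 + η / 8) := by ring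
      _ ≤ ((pcn m h' : ℝ) * Real.log m) * ((1 + η) * (hg i j / h')) := mul_le_mul_of_nonneg_left h10 hnn2
      _ = (1 + η) * ((pcn m h' : ℝ) * Real.log m / h') * hg i j := by ring

end Pool.Agent.Y854.PS
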