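import Pool.Agent.Y854.PS.MainSum

/-! Definitions for the assembly and the layer cake formula. -/

set_option autoImplicit false

open Finset Filter

namespace Pool.Agent.Y854.PS

/-- number of primes in `(m, m + h]` -/
def pcn (m h : ℕ) : ℕ := ((Ioc m (m + h)).filter Nat.Prime).card

/-- the grid of lengths at scale `i` -/
noncomputable def hg (i j : ℕ) : ℝ := (2 : ℝ) ^ ((j : ℝ) / ((i : ℝ) + 1))

/-- the integer lengths at scale `i` -/
noncomputable def hs (i s : ℕ) : ℕ := ⌊hg i (s / 2)⌋₊ + s % 2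

/-- normalised number of primes in `(m, m + h]` -/
noncomputable def gf (h m : ℕ) : ℝ := (pcn m h : ℝ) * Real.log m / h

/-- the resolution -/
def Lr (i : ℕ) : ℕ := (i + 2) ^ 4

/-- the number of layers -/
def Rr (i : ℕ) : ℕ := (i + 2) ^ 5

/-- the number of sets -/
def MM (i : ℕ) : ℕ := 1 + 2 * (i + 2) ^ 2 * Rr i

/-- the family of sets -/
noncomputable def AA (i k : ℕ) : Set ℕ :=
  if k = 0 then Set.univ else
    {m : ℕ | (((k - 1) % Rr i : ℕ) : ℝ) + 1 ≤ (Lr i : ℝ) * gf (hs i ((k - 1) / Rr i)) m}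

lemma MM_le (i : ℕ) : MM i ≤ (i + 2) ^ 9 := by
  unfold MM Rr
  have h1 : 1 ≤ (i + 2) ^ 7 := Nat.one_le_pow _ _ (by omega)
  have h2 : 2 ^ 2 ≤ (i + 2) ^ 2 := Nat.pow_le_pow_left (by omega) 2
  calc 1 + 2 * (i + 2) ^ 2 * (i + 2) ^ 5 = 1 + 2 * (i + 2) ^ 7 := by ring
    _ ≤ (i + 2) ^ 2 * (i + 2) ^ 7 := by nlinarith
    _ = (i + 2) ^ 9 := by ring

lemma Rr_pos (i : ℕ) : 0 < Rr i := by unfold Rr; positivity

lemma Lr_pos (i : ℕ) : 0 < Lr i := by unfold Lr; positivity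

lemma AA_zero (i : ℕ) : AA i 0 = Set.univ := by unfold AA; simp

lemma AA_succ (i s r : ℕ) (hr : r < Rr i) :
    AA i (s * Rr i + r + 1) = {m : ℕ | (r : ℝ) + 1 ≤ (Lr i : ℝ) * gf (hs i s) m} := by
  unfold AA
  have h0 : s * Rr i + r + 1 ≠ 0 := by omega
  rw [if_neg h0]
  have h1 : s * Rr i + r + 1 - 1 = r + Rr i * s := by
    rw [Nat.add_sub_cancel]; ring
  have h2 : (s * Rr i + r + 1 - 1) % Rr i = r := by
    rw [h1, Nat.add_mul_mod_self_left, Nat.mod_eq_of_lt hr]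
  have h3 : (s * Rr i + r + 1 - 1) / Rr i = s := by
    rw [h1, Nat.add_mul_div_left _ _ (Rr_pos i), Nat.div_eq_of_lt hr, zero_add]
  rw [h2, h3]

lemma idx_lt (i s r : ℕ) (hr : r < Rr i) (hs : s < 2 * (i + 2) ^ 2) : s * Rr i + r + 1 < MM i := by
  unfold MM
  have : (s + 1) * Rr i ≤ 2 * (i + 2) ^ 2 * Rr i := Nat.mul_le_mul_right _ hs
  have e : (s + 1) * Rr i = s * Rr i + Rr i := by ring
  omega

/-- one term of the layer cake formula -/
lemma layer_one (L R : ℕ) (hL : 0 < L) (g : ℝ) (hg0 : 0 ≤ g) (hg : (L : ℝ) * g ≤ R) :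
    |g - (1 / (L : ℝ)) * ∑ r ∈ range R, (if (r : ℝ) + 1 ≤ (L : ℝ) * g then (1 : ℝ) else 0)| ≤ 1 / L := by
  have hL' : (0 : ℝ) < L := by exact_mod_cast hL
  have hLg : 0 ≤ (L : ℝ) * g := by positivity
  have e : ∑ r ∈ range R, (if (r : ℝ) + 1 ≤ (L : ℝ) * g then (1 : ℝ) else 0) = (⌊(L : ℝ) * g⌋₊ : ℝ) := by
    rw [← Finset.sum_filter, Finset.sum_const, nsmul_eq_mul, mul_one]
    congr 1
    have : (range R).filter (fun r : ℕ => (r : ℝ) + 1 ≤ (L : ℝ) * g) = range ⌊(L : ℝ) * g⌋₊ := by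
      ext r
      simp only [mem_filter, mem_range]
      constructor
      · rintro ⟨h1, h2⟩
        have : r + 1 ≤ ⌊(L : ℝ) * g⌋₊ := by
          apply Nat.le_floor
          push_cast
          exact h2
        omega
      · intro h
        have h2 : ((r + 1 : ℕ) : ℝ) ≤ (L : ℝ) * g := (Nat.le_floor_iff hLg).mp h
        push_cast at h2
        refine ⟨?_, h2⟩
        have : ((r + 1 : ℕ) : ℝ) ≤ R := by push_cast; linarith
        have : r + 1 ≤ R := by exact_mod_cast this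
        omega
    rw [this, card_range]
  rw [e]
  have h1 := Nat.floor_le hLg
  have h2 := Nat.lt_floor_add_one ((L : ℝ) * g)
  have e2 : g - (1 / (L : ℝ)) * (⌊(L : ℝ) * g⌋₊ : ℝ) = ((L : ℝ) * g - (⌊(L : ℝ) * g⌋₊ : ℝ)) / L := by
    field_simp
  rw [e2, abs_of_nonneg (div_nonneg (by linarith) hL'.le)]
  apply div_le_div_of_nonneg_right _ hL'.le
  linarith

/-- the layer cake formula for weighted sums -/
lemma layer {ι : Type*} (T : Finset ι) (w g : ι → ℝ) (L R : ℕ) (hL : 0 < L)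
    (hw : ∀ t ∈ T, 0 ≤ w t) (hg0 : ∀ t ∈ T, 0 ≤ g t) (hg : ∀ t ∈ T, (L : ℝ) * g t ≤ R) :
    |∑ t ∈ T, w t * g t - (1 / (L : ℝ)) * ∑ r ∈ range R,
      ∑ t ∈ T.filter (fun t => (r : ℝ) + 1 ≤ (L : ℝ) * g t), w t| ≤ (1 / L) * ∑ t ∈ T, w t := by
  have e : (1 / (L : ℝ)) * ∑ r ∈ range R, ∑ t ∈ T.filter (fun t => (r : ℝ) + 1 ≤ (L : ℝ) * g t), w t =
      ∑ t ∈ T, w t * ((1 / (L : ℝ)) * ∑ r ∈ range R, (if (r : ℝ) + 1 ≤ (L : ℝ) * g t then (1 : ℝ) else 0)) := by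
    have e1 : ∀ r ∈ range R, ∑ t ∈ T.filter (fun t => (r : ℝ) + 1 ≤ (L : ℝ) * g t), w t =
        ∑ t ∈ T, w t * (if (r : ℝ) + 1 ≤ (L : ℝ) * g t then (1 : ℝ) else 0) := by
      intro r _
      rw [Finset.sum_filter]
      apply Finset.sum_congr rfl
      intro t _
      split_ifs <;> simp
    rw [Finset.sum_congr rfl e1, Finset.sum_comm, Finset.mul_sum]
    apply Finset.sum_congr rfl
    intro t _
    rw [← Finset.mul_sum]
    ring
  rw [e, ← Finset.sum_sub_distrib, Finset.mul_sum]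
  refine (Finset.abs_sum_le_sum_abs _ _).trans (Finset.sum_le_sum fun t ht => ?_)
  rw [← mul_sub, abs_mul, abs_of_nonneg (hw t ht), mul_comm]
  exact mul_le_mul_of_nonneg_right (layer_one L R hL (g t) (hg0 t ht) (hg t ht)) (hw t ht)

open Classical in
/-- the sampling hypothesis for the sequence `m` -/
def Samp (m : ℕ → ℕ) (c a κ : ℝ) : Prop := ∃ C : ℝ, 0 < C ∧ ∃ i0 : ℕ, ∀ i : ℕ, i0 ≤ i → ∀ k < MM i,
  ∀ u v : ℕ, 2 ^ i ≤ u → u ≤ v → v ≤ 2 ^ (i + 1) →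
  ∀ S : Finset ℕ, (∀ n, n ∈ S ↔ 1 ≤ n ∧ u < m n ∧ m n ≤ v) →
    |((S.filter (fun n => m n ∈ AA i k)).card : ℝ) -
      a * ∑ t ∈ (Ioc u v).filter (fun t => t ∈ AA i k), wt c t| ≤ C * ((2 : ℝ) ^ i) ^ (1 / c - κ)

lemma pcn_le (m h : ℕ) : pcn m h ≤ h := by
  unfold pcn
  refine (Finset.card_filter_le _ _).trans ?_
  rw [Nat.card_Ioc]
  omega

lemma gf_nonneg (h m : ℕ) : 0 ≤ gf h m := by
  unfold gf
  exact div_nonneg (mul_nonneg (Nat.cast_nonneg _) (Real.log_natCast_nonneg m)) (Nat.cast_nonneg _)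

lemma gf_le {h m : ℕ} (hh : 0 < h) : gf h m ≤ Real.log m := by
  unfold gf
  have hh' : (0 : ℝ) < h := by exact_mod_cast hh
  rw [div_le_iff₀ hh']
  have h1 : (pcn m h : ℝ) ≤ h := by exact_mod_cast pcn_le m h
  have h2 := Real.log_natCast_nonneg m
  nlinarith

lemma log_le_of_le {i m : ℕ} (hm : m ≤ 2 ^ (i + 1)) : Real.log m ≤ i + 1 := by
  rcases Nat.eq_zero_or_pos m with h | h
  · rw [h]; simp; positivity
  have h1 : (m : ℝ) ≤ 2 ^ (i + 1) := by exact_mod_cast hm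
  have h2 : Real.log m ≤ Real.log (2 ^ (i + 1)) := Real.log_le_log (by exact_mod_cast h) h1
  rw [Real.log_pow] at h2
  have h3 : Real.log 2 ≤ 1 := by
    have := Real.log_two_lt_d9
    linarith
  push_cast at h2
  nlinarith

lemma LR {i m : ℕ} {h : ℕ} (hh : 0 < h) (hm : m ≤ 2 ^ (i + 1)) : (Lr i : ℝ) * gf h m ≤ Rr i := by
  have h1 := (gf_le (m := m) hh).trans (log_le_of_le hm)
  have h2 := gf_nonneg h m
  unfold Lr Rr
  push_cast
  have h3 : (0 : ℝ) < ((i : ℝ) + 2) ^ 4 := by positivity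
  calc ((i : ℝ) + 2) ^ 4 * gf h m ≤ ((i : ℝ) + 2) ^ 4 * ((i : ℝ) + 2) := by
        apply mul_le_mul_of_nonneg_left _ h3.le
        linarith
    _ = _ := by ring

end Pool.Agent.Y854.PS
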