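import Pool.Agent.Y854.PS.Abel
import Pool.Agent.H442R2.EHI.PntErr

/-! The main term: primes in `(m, m + h]` on average over `m` in `(u, v]` with the weight
`(1 / c) m ^ (1 / c - 1) log m`. -/

set_option autoImplicit false

open Finset Filter

namespace Pool.Agent.Y854.PS

/-- the weight -/
noncomputable def wt (c : ℝ) (m : ℕ) : ℝ := (1 / c) * (m : ℝ) ^ (1 / c - 1)

/-- the indicator function of the primes -/
noncomputable def ip (m : ℕ) : ℝ := if m.Prime then 1 else 0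

lemma ip_nonneg (m : ℕ) : 0 ≤ ip m := by unfold ip; split_ifs <;> norm_num

lemma ip_le (m : ℕ) : ip m ≤ 1 := by unfold ip; split_ifs <;> norm_num

lemma wt_nonneg {c : ℝ} (hc : 1 < c) (m : ℕ) : 0 ≤ wt c m := by
  unfold wt; positivity

lemma wt_anti {c : ℝ} (hc : 1 < c) {m n : ℕ} (hm : 0 < m) (h : m ≤ n) : wt c n ≤ wt c m := by
  unfold wt
  have hc0 : 0 < c := by linarith
  have h1 : 1 / c - 1 ≤ 0 := by
    have : 1 / c ≤ 1 := by rw [div_le_one hc0]; exact hc.le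
    linarith
  apply mul_le_mul_of_nonneg_left _ (by positivity)
  apply Real.rpow_le_rpow_of_nonpos (by exact_mod_cast hm) (by exact_mod_cast h) h1

lemma wt_le {c : ℝ} (hc : 1 < c) {X m : ℕ} (hX : 0 < X) (h : X ≤ m) : wt c m ≤ (X : ℝ) ^ (1 / c) / X := by
  refine (wt_anti hc hX h).trans ?_
  unfold wt
  have hX' : (0 : ℝ) < X := by exact_mod_cast hX
  have hc0 : 0 < c := by linarith
  have h1 : 1 / c ≤ 1 := by rw [div_le_one hc0]; exact hc.le
  rw [Real.rpow_sub hX', Real.rpow_one]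
  have h2 : 0 ≤ (X : ℝ) ^ (1 / c) / X := by positivity
  calc 1 / c * ((X : ℝ) ^ (1 / c) / X) ≤ 1 * ((X : ℝ) ^ (1 / c) / X) := mul_le_mul_of_nonneg_right h1 h2
    _ = _ := one_mul _

/-- `wt c m * log m` is antitone from some point on -/
lemma wl_anti {c : ℝ} (hc : 1 < c) : ∃ X0 : ℕ, 1 ≤ X0 ∧ ∀ m n : ℕ, X0 ≤ m → m ≤ n →
    wt c n * Real.log n ≤ wt c m * Real.log m := by
  have hc0 : 0 < c := by linarith
  have ha : 0 < 1 - 1 / c := by
    have : 1 / c < 1 := by rw [div_lt_one hc0]; exact hc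
    linarith
  have h := Real.log_div_self_rpow_antitoneOn ha
  obtain ⟨X0, hX0⟩ := exists_nat_ge (Real.exp (1 - 1 / c)⁻¹)
  refine ⟨max X0 1, le_max_right _ _, fun m n hm hmn => ?_⟩
  have hm1 : 1 ≤ m := (le_max_right _ _).trans hm
  have hm0 : (0 : ℝ) < m := by exact_mod_cast hm1
  have hn0 : (0 : ℝ) < n := lt_of_lt_of_le hm0 (by exact_mod_cast hmn)
  have h1 : Real.exp (1 - 1 / c)⁻¹ ≤ m := hX0.trans (by exact_mod_cast (le_max_left _ _).trans hm)
  have h2 : (m : ℝ) ≤ n := by exact_mod_cast hmn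
  have h3 := h (show (m : ℝ) ∈ Set.Ici (Real.exp (1 - 1 / c)⁻¹) from h1)
    (show (n : ℝ) ∈ Set.Ici (Real.exp (1 - 1 / c)⁻¹) from h1.trans h2) h2
  simp only at h3
  have e : ∀ x : ℝ, 0 < x → (1 / c) * x ^ (1 / c - 1) * Real.log x = (1 / c) * (Real.log x / x ^ (1 - 1 / c)) := by
    intro x hx
    rw [show 1 / c - 1 = -(1 - 1 / c) by ring, Real.rpow_neg hx.le]
    field_simp
  unfold wt
  rw [e _ hn0, e _ hm0]
  exact mul_le_mul_of_nonneg_left h3 (by positivity)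

lemma sum_shift (F : ℕ → ℝ) (u v k : ℕ) (h : u ≤ v) :
    ∑ m ∈ Ioc u v, F (m + k) = ∑ m ∈ Ioc u v, F m + ∑ m ∈ Ioc v (v + k), F m - ∑ m ∈ Ioc u (u + k), F m := by
  have h1 : ∑ m ∈ Ioc u v, F (m + k) = ∑ m ∈ Ioc (u + k) (v + k), F m := by
    rw [← Finset.map_add_right_Ioc, Finset.sum_map]
    rfl
  have h2 := Finset.sum_Ioc_consecutive F h (Nat.le_add_right v k)
  have h3 := Finset.sum_Ioc_consecutive F (Nat.le_add_right u k) (Nat.add_le_add_right h k)
  rw [h1]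
  linarith

/-- one shift -/
lemma one_shift {W : ℕ → ℝ} {X u v k : ℕ} (hWanti : ∀ m n, X ≤ m → m ≤ n → W n ≤ W m)
    (hW0 : ∀ m, 0 ≤ W m) (hXu : X ≤ u) (huv : u ≤ v) :
    |∑ m ∈ Ioc u v, W m * ip (m + k) - ∑ m ∈ Ioc u v, W m * ip m| ≤ 3 * k * W X := by
  have hWX : ∀ m, X ≤ m → W m ≤ W X := fun m hm => hWanti X m le_rfl hm
  have h1 := sum_shift (fun m => W m * ip m) u v k huv
  have h2 := sum_shift W u v k huv
  have hb : ∀ t, X ≤ t → ∑ m ∈ Ioc t (t + k), W m ≤ k * W X := by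
    intro t ht
    calc ∑ m ∈ Ioc t (t + k), W m ≤ ∑ _m ∈ Ioc t (t + k), W X := by
          apply Finset.sum_le_sum
          intro m hm
          rw [mem_Ioc] at hm
          exact hWX m (by omega)
      _ = k * W X := by
          rw [sum_const, Nat.card_Ioc, nsmul_eq_mul]
          congr 2
          omega
  have hb' : ∀ t, X ≤ t → 0 ≤ ∑ m ∈ Ioc t (t + k), W m * ip m ∧ ∑ m ∈ Ioc t (t + k), W m * ip m ≤ k * W X := by
    intro t ht
    constructor
    · exact Finset.sum_nonneg fun m _ => mul_nonneg (hW0 m) (ip_nonneg m)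
    · refine le_trans (Finset.sum_le_sum fun m _ => ?_) (hb t ht)
      exact mul_le_of_le_one_right (hW0 m) (ip_le m)
  have h3 : |∑ m ∈ Ioc u v, W m * ip (m + k) - ∑ m ∈ Ioc u v, W (m + k) * ip (m + k)| ≤ k * W X := by
    rw [← Finset.sum_sub_distrib]
    refine (Finset.abs_sum_le_sum_abs _ _).trans ?_
    have h4 : ∀ m ∈ Ioc u v, |W m * ip (m + k) - W (m + k) * ip (m + k)| ≤ W m - W (m + k) := by
      intro m hm
      rw [mem_Ioc] at hm
      have h5 := hWanti m (m + k) (by omega) (by omega)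
      rw [← sub_mul, abs_mul, abs_of_nonneg (by linarith : 0 ≤ W m - W (m + k)), abs_of_nonneg (ip_nonneg _)]
      exact mul_le_of_le_one_right (by linarith) (ip_le _)
    refine (Finset.sum_le_sum h4).trans ?_
    rw [Finset.sum_sub_distrib, h2]
    have h6 := hb u hXu
    have h7 : 0 ≤ ∑ m ∈ Ioc v (v + k), W m := Finset.sum_nonneg fun m _ => hW0 m
    linarith
  obtain ⟨a1, a2⟩ := hb' u hXu
  obtain ⟨b1, b2⟩ := hb' v (hXu.trans huv)
  have h8 : |∑ m ∈ Ioc u v, W (m + k) * ip (m + k) - ∑ m ∈ Ioc u v, W m * ip m| ≤ k * W X := by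
    rw [h1, abs_le]
    constructor <;> linarith
  have hk : 0 ≤ (k : ℝ) * W X := mul_nonneg (Nat.cast_nonneg k) (hW0 X)
  have h9 := abs_add_le (∑ m ∈ Ioc u v, W m * ip (m + k) - ∑ m ∈ Ioc u v, W (m + k) * ip (m + k))
    (∑ m ∈ Ioc u v, W (m + k) * ip (m + k) - ∑ m ∈ Ioc u v, W m * ip m)
  rw [sub_add_sub_cancel] at h9
  linarith

/-- `pc m (m + h)` as a sum over the shifts -/
lemma pc_eq_sum (m h : ℕ) : (((Ioc m (m + h)).filter Nat.Prime).card : ℝ) = ∑ k ∈ Ioc 0 h, ip (m + k) := by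
  rw [Finset.card_filter]
  push_cast
  have e : Ioc m (m + h) = (Ioc 0 h).map (addLeftEmbedding m) := by
    rw [Finset.map_add_left_Ioc, add_zero]
  rw [e, Finset.sum_map]
  rfl

/-- all shifts up to `h` -/
lemma all_shifts {W : ℕ → ℝ} {X u v : ℕ} (h : ℕ) (hWanti : ∀ m n, X ≤ m → m ≤ n → W n ≤ W m)
    (hW0 : ∀ m, 0 ≤ W m) (hXu : X ≤ u) (huv : u ≤ v) :
    |∑ m ∈ Ioc u v, W m * (((Ioc m (m + h)).filter Nat.Prime).card : ℝ) -
      h * ∑ m ∈ Ioc u v, W m * ip m| ≤ 3 * (h : ℝ) ^ 2 * W X := by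
  have e1 : ∑ m ∈ Ioc u v, W m * (((Ioc m (m + h)).filter Nat.Prime).card : ℝ) =
      ∑ k ∈ Ioc 0 h, ∑ m ∈ Ioc u v, W m * ip (m + k) := by
    rw [Finset.sum_comm]
    apply Finset.sum_congr rfl
    intro m _
    rw [pc_eq_sum, Finset.mul_sum]
  have e2 : (h : ℝ) * ∑ m ∈ Ioc u v, W m * ip m = ∑ _k ∈ Ioc 0 h, ∑ m ∈ Ioc u v, W m * ip m := by
    rw [sum_const, Nat.card_Ioc, nsmul_eq_mul, Nat.sub_zero]
  rw [e1, e2, ← Finset.sum_sub_distrib]
  refine (Finset.abs_sum_le_sum_abs _ _).trans ?_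
  calc ∑ k ∈ Ioc 0 h, |∑ m ∈ Ioc u v, W m * ip (m + k) - ∑ m ∈ Ioc u v, W m * ip m|
      ≤ ∑ _k ∈ Ioc 0 h, 3 * (h : ℝ) * W X := by
        apply Finset.sum_le_sum
        intro k hk
        rw [mem_Ioc] at hk
        refine (one_shift hWanti hW0 hXu huv).trans ?_
        have : (k : ℝ) ≤ h := by exact_mod_cast hk.2
        have h0 := hW0 X
        nlinarith
    _ = 3 * (h : ℝ) ^ 2 * W X := by
        rw [sum_const, Nat.card_Ioc, nsmul_eq_mul, Nat.sub_zero]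
        ring

lemma theta_nat (N : ℕ) : Chebyshev.theta (N : ℝ) = ∑ m ∈ Ioc 0 N, ip m * Real.log m := by
  rw [Chebyshev.theta_eq_sum_Icc, Nat.floor_natCast, Finset.sum_filter]
  have e : Icc 0 N = insert 0 (Ioc 0 N) := by
    ext x; simp only [mem_Icc, mem_insert, mem_Ioc]; omega
  rw [e, Finset.sum_insert (by simp)]
  have : ¬ Nat.Prime 0 := Nat.not_prime_zero
  rw [if_neg this, zero_add]
  apply Finset.sum_congr rfl
  intro m _
  unfold ip
  split_ifs <;> simp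

/-- the prime number theorem on `(u, t]` -/
lemma pnt_Ioc (U : ℕ) : ∃ C : ℝ, 0 < C ∧ ∀ X : ℕ, 3 ≤ X → ∀ u t : ℕ, X ≤ u → u ≤ t → t ≤ 2 * X →
    |∑ m ∈ Ioc u t, (ip m * Real.log m - 1)| ≤ C * X / Real.log X ^ U := by
  obtain ⟨C, hC, h⟩ := Pool.Agent.H442R2.EHI.PntErrAux.thetaU U
  refine ⟨4 * C, by positivity, fun X hX u t hXu hut ht => ?_⟩
  have hX' : (3 : ℝ) ≤ X := by exact_mod_cast hX
  have hl : 0 < Real.log X := Real.log_pos (by linarith)
  have e : ∑ m ∈ Ioc u t, (ip m * Real.log m - 1) =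
      (Chebyshev.theta (t : ℝ) - t) - (Chebyshev.theta (u : ℝ) - u) := by
    rw [theta_nat, theta_nat, Finset.sum_sub_distrib]
    have h1 := Finset.sum_Ioc_consecutive (fun m => ip m * Real.log m) (Nat.zero_le u) hut
    rw [sum_const, Nat.card_Ioc, nsmul_eq_mul, mul_one, Nat.cast_sub hut]
    linarith
  rw [e]
  have hb : ∀ N : ℕ, X ≤ N → N ≤ 2 * X → |Chebyshev.theta (N : ℝ) - N| ≤ 2 * C * X / Real.log X ^ U := by
    intro N h1 h2
    refine (h N (by omega)).trans ?_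
    have h3 : (X : ℝ) ≤ N := by exact_mod_cast h1
    have h4 : (N : ℝ) ≤ 2 * X := by exact_mod_cast h2
    have h5 : Real.log X ≤ Real.log N := Real.log_le_log (by linarith) h3
    have h6 : Real.log X ^ U ≤ Real.log N ^ U := pow_le_pow_left₀ hl.le h5 U
    have h7 : 0 < Real.log X ^ U := by positivity
    calc C * ((N : ℝ) / Real.log N ^ U) ≤ C * ((2 * X) / Real.log X ^ U) := by
          apply mul_le_mul_of_nonneg_left _ hC.le
          apply div_le_div₀ (by positivity) h4 h7 h6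
      _ = 2 * C * X / Real.log X ^ U := by ring
  have h1 := hb t (by omega) ht
  have h2 := hb u hXu (by omega)
  have h3 := abs_sub (Chebyshev.theta (t : ℝ) - t) (Chebyshev.theta (u : ℝ) - u)
  refine h3.trans ?_
  calc _ ≤ 2 * C * X / Real.log X ^ U + 2 * C * X / Real.log X ^ U := add_le_add h1 h2
    _ = _ := by ring

/-- **The main term.** -/
theorem main_sum (c : ℝ) (hc : 1 < c) : ∃ C : ℝ, 0 < C ∧ ∃ X0 : ℕ, 3 ≤ X0 ∧ ∀ X : ℕ, X0 ≤ X →
    ∀ u v h : ℕ, X ≤ u → u ≤ v → v ≤ 2 * X → (h : ℝ) ≤ X / Real.log X ^ 5 →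
      |∑ m ∈ Ioc u v, (wt c m * Real.log m) * (((Ioc m (m + h)).filter Nat.Prime).card : ℝ) -
        h * ∑ m ∈ Ioc u v, wt c m| ≤ C * h * (X : ℝ) ^ (1 / c) / Real.log X ^ 4 := by
  obtain ⟨X1, hX1, hanti⟩ := wl_anti hc
  obtain ⟨C, hC, hpnt⟩ := pnt_Ioc 5
  refine ⟨C + 3, by positivity, max X1 3, le_max_right _ _, fun X hX u v h hXu huv hv hh => ?_⟩
  have hXX1 : X1 ≤ X := (le_max_left _ _).trans hX
  have hX3 : 3 ≤ X := (le_max_right _ _).trans hX
  have hX3r : (3 : ℝ) ≤ X := by exact_mod_cast hX3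
  have hX0 : (0 : ℝ) < X := by linarith
  have hl1 : 1 ≤ Real.log X := by
    rw [Real.le_log_iff_exp_le hX0]
    have := Real.exp_one_lt_d9
    linarith
  have hl0 : 0 < Real.log X := by linarith
  have h1 := all_shifts (W := fun m => wt c m * Real.log m) (X := X) (u := u) (v := v) h
    (fun m n hm hmn => hanti m n (hXX1.trans hm) hmn)
    (fun m => mul_nonneg (wt_nonneg hc m) (Real.log_natCast_nonneg m)) hXu huv
  have h2 : |∑ m ∈ Ioc u v, wt c m * Real.log m * ip m - ∑ m ∈ Ioc u v, wt c m| ≤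
      C * X / Real.log X ^ 5 * ((X : ℝ) ^ (1 / c) / X) := by
    have e : ∑ m ∈ Ioc u v, wt c m * Real.log m * ip m - ∑ m ∈ Ioc u v, wt c m =
        ∑ m ∈ Ioc u v, (ip m * Real.log m - 1) * wt c m := by
      rw [← Finset.sum_sub_distrib]
      apply Finset.sum_congr rfl
      intro m _
      ring
    rw [e]
    have h3 := abel_ineq (fun m => ip m * Real.log m - 1) (wt c) (C * X / Real.log X ^ 5) u v huv
      (fun m _ _ => wt_nonneg hc m) (fun m hm _ => wt_anti hc (by omega) (by omega))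
      (fun t ht1 ht2 => hpnt X hX3 u t hXu ht1 (by omega))
    have hb0 : 0 ≤ C * X / Real.log X ^ 5 := by positivity
    rcases h3 with h3 | h3
    · refine h3.trans ?_
      exact mul_le_mul_of_nonneg_left (wt_le hc (by omega) (by omega)) hb0
    · rw [h3]
      simp only [Ioc_self, sum_empty, abs_zero]
      positivity
  have hW : wt c X * Real.log X ≤ (X : ℝ) ^ (1 / c) / X * Real.log X :=
    mul_le_mul_of_nonneg_right (wt_le hc (by omega) le_rfl) hl0.le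
  have hh0 : (0 : ℝ) ≤ h := Nat.cast_nonneg h
  have hp : 0 < (X : ℝ) ^ (1 / c) := Real.rpow_pos_of_pos hX0 _
  have e3 : ∑ m ∈ Ioc u v, (wt c m * Real.log m) * (((Ioc m (m + h)).filter Nat.Prime).card : ℝ) -
        h * ∑ m ∈ Ioc u v, wt c m =
      (∑ m ∈ Ioc u v, (wt c m * Real.log m) * (((Ioc m (m + h)).filter Nat.Prime).card : ℝ) -
        h * ∑ m ∈ Ioc u v, wt c m * Real.log m * ip m) +
      h * (∑ m ∈ Ioc u v, wt c m * Real.log m * ip m - ∑ m ∈ Ioc u v, wt c m) := by ring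
  rw [e3]
  refine (abs_add_le _ _).trans ?_
  rw [abs_mul, abs_of_nonneg hh0]
  have h4 : 3 * (h : ℝ) ^ 2 * (wt c X * Real.log X) ≤ 3 * h * (X : ℝ) ^ (1 / c) / Real.log X ^ 4 := by
    calc 3 * (h : ℝ) ^ 2 * (wt c X * Real.log X) ≤ 3 * (h : ℝ) ^ 2 * ((X : ℝ) ^ (1 / c) / X * Real.log X) :=
          mul_le_mul_of_nonneg_left hW (by positivity)
      _ = 3 * h * (X : ℝ) ^ (1 / c) * ((h : ℝ) * (Real.log X / X)) := by ring
      _ ≤ 3 * h * (X : ℝ) ^ (1 / c) * ((X / Real.log X ^ 5) * (Real.log X / X)) := by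
          apply mul_le_mul_of_nonneg_left _ (by positivity)
          exact mul_le_mul_of_nonneg_right hh (by positivity)
      _ = 3 * h * (X : ℝ) ^ (1 / c) / Real.log X ^ 4 := by
          field_simp
  have h5 : (h : ℝ) * (C * X / Real.log X ^ 5 * ((X : ℝ) ^ (1 / c) / X)) ≤
      C * h * (X : ℝ) ^ (1 / c) / Real.log X ^ 4 := by
    have e5 : (h : ℝ) * (C * X / Real.log X ^ 5 * ((X : ℝ) ^ (1 / c) / X)) =
        C * h * (X : ℝ) ^ (1 / c) / Real.log X ^ 5 := by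
      field_simp
    rw [e5]
    apply div_le_div_of_nonneg_left (by positivity) (by positivity)
    exact pow_le_pow_right₀ hl1 (by norm_num)
  have h6 := mul_le_mul_of_nonneg_left h2 hh0
  calc _ ≤ 3 * (h : ℝ) ^ 2 * (wt c X * Real.log X) +
        h * (C * X / Real.log X ^ 5 * ((X : ℝ) ^ (1 / c) / X)) := add_le_add h1 h6
    _ ≤ 3 * h * (X : ℝ) ^ (1 / c) / Real.log X ^ 4 + C * h * (X : ℝ) ^ (1 / c) / Real.log X ^ 4 :=
        add_le_add h4 h5
    _ = _ := by ring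

end Pool.Agent.Y854.PS
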