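import Pool.Agent.Y854.PS.Grid

/-! Long intervals: pointwise bounds. -/

set_option autoImplicit false

open Finset Filter

namespace Pool.Agent.Y854.PS

lemma theta_diff {a b : ℕ} (hab : a ≤ b) :
    Chebyshev.theta (b : ℝ) - Chebyshev.theta (a : ℝ) = ∑ m ∈ Ioc a b, ip m * Real.log m := by
  rw [theta_nat, theta_nat]
  have h1 := Finset.sum_Ioc_consecutive (fun m => ip m * Real.log m) (Nat.zero_le a) hab
  linarith

lemma pr_eq (x H : ℝ) : pr x H = ∑ m ∈ Ioc ⌊x⌋₊ ⌊x + H⌋₊, ip m := by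
  unfold pr ip
  rw [Finset.card_filter]
  push_cast
  rfl

lemma floor_le_add {x H : ℝ} (hH : 0 ≤ H) : ⌊x⌋₊ ≤ ⌊x + H⌋₊ := Nat.floor_le_floor (by linarith)

lemma pr_log_le {x H : ℝ} (hx : 1 ≤ x) (hH : 0 ≤ H) :
    pr x H * Real.log x ≤ Chebyshev.theta (⌊x + H⌋₊ : ℝ) - Chebyshev.theta (⌊x⌋₊ : ℝ) := by
  rw [theta_diff (floor_le_add hH), pr_eq, Finset.sum_mul]
  apply Finset.sum_le_sum
  intro m hm
  rw [mem_Ioc] at hm
  apply mul_le_mul_of_nonneg_left _ (ip_nonneg m)
  apply Real.log_le_log (by linarith)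
  exact (Nat.lt_of_floor_lt hm.1).le

lemma le_pr_log {x H : ℝ} (hx : 1 ≤ x) (hH : 0 ≤ H) :
    Chebyshev.theta (⌊x + H⌋₊ : ℝ) - Chebyshev.theta (⌊x⌋₊ : ℝ) ≤ pr x H * Real.log (x + H) := by
  rw [theta_diff (floor_le_add hH), pr_eq, Finset.sum_mul]
  apply Finset.sum_le_sum
  intro m hm
  rw [mem_Ioc] at hm
  apply mul_le_mul_of_nonneg_left _ (ip_nonneg m)
  have h0 : 0 < m := by omega
  apply Real.log_le_log (by exact_mod_cast h0)
  calc (m : ℝ) ≤ (⌊x + H⌋₊ : ℝ) := by exact_mod_cast hm.2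
    _ ≤ x + H := Nat.floor_le (by linarith)

lemma ff_nonneg {x H : ℝ} (hx : 1 ≤ x) (hH : 0 ≤ H) : 0 ≤ ff x H := by
  unfold ff
  exact div_nonneg (mul_nonneg (pr_nonneg _ _) (Real.log_nonneg hx)) hH

lemma ff_le_three {x H : ℝ} (hx : 1 ≤ x) (hH : x ≤ H) : ff x H ≤ 3 := by
  have hHpos : 0 < H := by linarith
  unfold ff
  rw [div_le_iff₀ hHpos]
  have h1 := pr_log_le hx hHpos.le
  have h2 := Chebyshev.theta_nonneg (⌊x⌋₊ : ℝ)
  have h3 := Chebyshev.theta_le_log4_mul_x (x := (⌊x + H⌋₊ : ℝ)) (Nat.cast_nonneg _)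
  have h4 : (⌊x + H⌋₊ : ℝ) ≤ x + H := Nat.floor_le (by linarith)
  have h5 : Real.log 4 ≤ 1.4 := by
    have : Real.log 4 = 2 * Real.log 2 := by
      rw [show (4 : ℝ) = 2 ^ 2 by norm_num, Real.log_pow]; norm_num
    rw [this]
    have := Real.log_two_lt_d9
    linarith
  have h6 : 0 ≤ (⌊x + H⌋₊ : ℝ) := Nat.cast_nonneg _
  have h7 : Real.log 4 * (⌊x + H⌋₊ : ℝ) ≤ 1.4 * (2 * H) := by
    apply mul_le_mul h5 (by linarith) h6 (by norm_num)
  linarith

lemma ff_le_small {x H : ℝ} (hx : 1 ≤ x) (hH : 1 ≤ H) : ff x H ≤ 2 * Real.log x := by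
  have hHpos : 0 < H := by linarith
  unfold ff
  rw [div_le_iff₀ hHpos]
  have h1 := pr_le_pcn (x := x) (H := H) (H' := H) (by linarith) (by linarith) le_rfl
  have h2 : (pcn ⌊x⌋₊ (⌊H⌋₊ + 1) : ℝ) ≤ ((⌊H⌋₊ + 1 : ℕ) : ℝ) := by exact_mod_cast pcn_le _ _
  push_cast at h2
  have h3 := Nat.floor_le hHpos.le
  have h4 := Real.log_nonneg hx
  have h5 : pr x H ≤ 2 * H := by linarith
  nlinarith

/-- intervals of length between `x / log^7 x` and `K x` -/
theorem pointwise (K : ℝ) (hK : 1 ≤ K) (δ : ℝ) (hδ : 0 < δ) (_hδ1 : δ ≤ 1) : ∃ x0 : ℝ, ∀ x : ℝ, x0 ≤ x →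
    ∀ H : ℝ, x / Real.log x ^ 7 ≤ H → H ≤ K * x → |ff x H - 1| ≤ δ := by
  obtain ⟨C, hC, hth⟩ := Pool.Agent.H442R2.EHI.PntErrAux.thetaU 9
  set C' : ℝ := 2 ^ 11 * C * (K + 1) with hC'
  have hC'pos : 0 < C' := by positivity
  have hlog : Tendsto Real.log atTop atTop := Real.tendsto_log_atTop
  have E1 := hlog.eventually (eventually_ge_atTop (1 : ℝ))
  have E2 := hlog.eventually (eventually_ge_atTop (4 * C' / δ))
  have E3 := hlog.eventually (eventually_ge_atTop (2 * Real.log (K + 1) / δ))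
  have E4 := (Real.isLittleO_pow_log_id_atTop (n := 7)).def (show 0 < δ / 4 by positivity)
  have E5 := eventually_ge_atTop (4 : ℝ)
  obtain ⟨x0, hx0⟩ := (E1.and (E2.and (E3.and (E4.and E5)))).exists_forall_of_atTop
  refine ⟨x0, fun x hx H hH1 hH2 => ?_⟩
  obtain ⟨l1, l2, l3, l4, l5⟩ := hx0 x hx
  have hxpos : 0 < x := by linarith
  have hx1 : 1 ≤ x := by linarith
  have hlpos : 0 < Real.log x := by linarith
  have hL7 : 0 < Real.log x ^ 7 := by positivity
  have hHpos : 0 < H := lt_of_lt_of_le (by positivity) hH1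
  -- floors
  set a := ⌊x⌋₊ with ha
  set b := ⌊x + H⌋₊ with hb
  have hab : a ≤ b := floor_le_add hHpos.le
  have a1 : (a : ℝ) ≤ x := Nat.floor_le hxpos.le
  have a2 : x < a + 1 := Nat.lt_floor_add_one x
  have b1 : (b : ℝ) ≤ x + H := Nat.floor_le (by linarith)
  have b2 : x + H < b + 1 := Nat.lt_floor_add_one _
  have ha2 : 2 ≤ a := Nat.le_floor (by norm_num; linarith)
  have hapos : (0 : ℝ) < a := by exact_mod_cast (by omega : 0 < a)
  have hloga : Real.log x / 2 ≤ Real.log a := by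
    have h1 : Real.sqrt x ≤ a := by
      have h2 : Real.sqrt x ≤ x - 1 := by
        rw [Real.sqrt_le_left (by linarith)]
        nlinarith
      linarith
    have h3 : Real.log (Real.sqrt x) ≤ Real.log a := Real.log_le_log (Real.sqrt_pos.mpr hxpos) h1
    rwa [Real.log_sqrt hxpos.le] at h3
  have hloga0 : 0 < Real.log x / 2 := by positivity
  have hbd : ∀ N : ℕ, a ≤ N → (N : ℝ) ≤ (K + 1) * x →
      |Chebyshev.theta (N : ℝ) - N| ≤ (C' / 4) * (x / Real.log x ^ 9) := by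
    intro N hN1 hN2
    refine (hth N (by omega)).trans ?_
    have h1 : Real.log x / 2 ≤ Real.log N :=
      hloga.trans (Real.log_le_log hapos (by exact_mod_cast hN1))
    have h2 : (Real.log x / 2) ^ 9 ≤ Real.log N ^ 9 := pow_le_pow_left₀ hloga0.le h1 9
    calc C * ((N : ℝ) / Real.log N ^ 9) ≤ C * (((K + 1) * x) / (Real.log x / 2) ^ 9) := by
          apply mul_le_mul_of_nonneg_left _ hC.le
          exact div_le_div₀ (by positivity) hN2 (by positivity) h2
      _ = (C' / 4) * (x / Real.log x ^ 9) := by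
          rw [hC']
          field_simp
          ring
  have h1 := hbd a le_rfl (by nlinarith)
  have h2 := hbd b hab (by linarith)
  -- the difference of theta
  set D := Chebyshev.theta (b : ℝ) - Chebyshev.theta (a : ℝ) with hD
  have hDH : |D - H| ≤ 1 + (C' / 2) * (x / Real.log x ^ 9) := by
    rw [abs_le] at h1 h2 ⊢
    constructor <;> linarith [h1.1, h1.2, h2.1, h2.2]
  have hErr : 1 + (C' / 2) * (x / Real.log x ^ 9) ≤ (δ / 2) * H := by
    have e1 : 1 ≤ (δ / 4) * H := by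
      rw [Real.norm_of_nonneg hL7.le] at l4
      simp only [id, Real.norm_of_nonneg hxpos.le] at l4
      have h3 : 1 ≤ (δ / 4) * (x / Real.log x ^ 7) := by
        rw [← mul_div_assoc, le_div_iff₀ hL7]
        linarith
      exact h3.trans (mul_le_mul_of_nonneg_left hH1 (by positivity))
    have e2 : (C' / 2) * (x / Real.log x ^ 9) ≤ (δ / 4) * H := by
      have h3 : (C' / 2) * (x / Real.log x ^ 9) ≤ (δ / 4) * (x / Real.log x ^ 7) := by
        have h4 : (C' / 2) * (x / Real.log x ^ 9) = (C' / 2 / Real.log x ^ 2) * (x / Real.log x ^ 7) := by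
          field_simp
        rw [h4]
        apply mul_le_mul_of_nonneg_right _ (by positivity)
        rw [div_le_iff₀ (by positivity)]
        rw [div_le_iff₀ hδ] at l2
        nlinarith
      exact h3.trans (mul_le_mul_of_nonneg_left hH1 (by positivity))
    linarith
  have hD1 := (abs_le.mp (hDH.trans hErr)).1
  have hD2 := (abs_le.mp (hDH.trans hErr)).2
  have p1 := pr_log_le hx1 hHpos.le
  have p2 := le_pr_log hx1 hHpos.le
  rw [← ha, ← hb, ← hD] at p1 p2
  have hP := pr_nonneg x H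
  unfold ff
  rw [abs_le]
  constructor
  · -- lower bound
    have q1 : Real.log (x + H) ≤ (1 + δ / 2) * Real.log x := by
      have h3 : x + H ≤ (K + 1) * x := by linarith
      have h4 : Real.log (x + H) ≤ Real.log ((K + 1) * x) := Real.log_le_log (by linarith) h3
      rw [Real.log_mul (by positivity) hxpos.ne'] at h4
      rw [div_le_iff₀ hδ] at l3
      linarith
    have q2 : pr x H * Real.log (x + H) ≤ pr x H * ((1 + δ / 2) * Real.log x) :=
      mul_le_mul_of_nonneg_left q1 hP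
    have q3 : (1 - δ / 2) * H ≤ (1 + δ / 2) * (pr x H * Real.log x) := by
      linarith
    have q4 : (1 - δ) * H ≤ pr x H * Real.log x := by
      have q5 : (1 - δ) * (1 + δ / 2) ≤ 1 - δ / 2 := by nlinarith
      have q6 : (1 - δ) * (1 + δ / 2) * H ≤ (1 - δ / 2) * H := mul_le_mul_of_nonneg_right q5 hHpos.le
      have q7 : (1 + δ / 2) * ((1 - δ) * H) ≤ (1 + δ / 2) * (pr x H * Real.log x) := by linarith
      exact le_of_mul_le_mul_left q7 (by positivity)
    have q8 : 1 - δ ≤ pr x H * Real.log x / H := by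
      rw [le_div_iff₀ hHpos]
      exact q4
    linarith
  · have q1 : pr x H * Real.log x / H ≤ 1 + δ := by
      rw [div_le_iff₀ hHpos]
      nlinarith
    linarith

end Pool.Agent.Y854.PS
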