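import Pool.Agent.H706R2.PS.Fin5
import Pool.Agent.H706R2.PS.D2
import Pool.Agent.Results.MP_31d0eb_nt.AllScales

/-! Regular points along `n^c`: both bounds at all scales at once. -/

set_option autoImplicit false

open Finset Filter

namespace Pool.Agent.Y854.PS

open Pool.Agent.H706R2.PS
open Pool.Agent.H357R2.SI

/-- both bounds at `x`, for all lengths between `K log x` and `x` -/
def Reg (δ K lam x : ℝ) : Prop := ∀ H : ℝ, K * Real.log x ≤ H → H ≤ x →
  (1 - δ) * H / Real.log x ≤ piS x H ∧ (piS x H : ℝ) ≤ lam * H / Real.log x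

lemma piS_mono {x H H' : ℝ} (h : H ≤ H') : piS x H ≤ piS x H' := by
  unfold piS
  apply Finset.card_le_card
  intro p hp
  rw [mem_filter, mem_Ioc] at hp ⊢
  exact ⟨⟨hp.1.1, hp.1.2.trans (Nat.floor_le_floor (by linarith))⟩, hp.2⟩

lemma piS_floor_le {x H : ℝ} (hx : 0 ≤ x) : piS (⌊x⌋₊ : ℝ) H ≤ piS x H := by
  unfold piS
  apply Finset.card_le_card
  rw [Nat.floor_natCast]
  intro p hp
  rw [mem_filter, mem_Ioc] at hp ⊢
  refine ⟨⟨hp.1.1, hp.1.2.trans (Nat.floor_le_floor ?_)⟩, hp.2⟩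
  linarith [Nat.floor_le hx]

lemma piS_le_floor {x H : ℝ} (_hx : 0 ≤ x) (hH : 0 ≤ H) : (piS x H : ℝ) ≤ piS (⌊x⌋₊ : ℝ) H + 1 := by
  unfold piS
  rw [Nat.floor_natCast]
  have h1 : ⌊x + H⌋₊ ≤ ⌊(⌊x⌋₊ : ℝ) + H⌋₊ + 1 := by
    rw [← Nat.floor_add_one (by positivity)]
    apply Nat.floor_le_floor
    linarith [Nat.lt_floor_add_one x]
  have h2 : (Ioc ⌊x⌋₊ ⌊x + H⌋₊).filter Nat.Prime ⊆
      insert (⌊(⌊x⌋₊ : ℝ) + H⌋₊ + 1) ((Ioc ⌊x⌋₊ ⌊(⌊x⌋₊ : ℝ) + H⌋₊).filter Nat.Prime) := by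
    intro p hp
    rw [mem_filter, mem_Ioc] at hp
    rw [mem_insert, mem_filter, mem_Ioc]
    by_cases h : p = ⌊(⌊x⌋₊ : ℝ) + H⌋₊ + 1
    · exact Or.inl h
    · exact Or.inr ⟨⟨hp.1.1, by omega⟩, hp.2⟩
  exact_mod_cast (Finset.card_le_card h2).trans (Finset.card_insert_le _ _)

/-- from the integer part to the real number -/
lemma reg_of_floor {δ K lam : ℝ} (hδ0 : 0 < δ) (hδ1 : δ < 1) (hK : 0 < K) (hlam : 0 < lam) :
    ∃ x0 : ℝ, ∀ x : ℝ, x0 ≤ x → Reg (δ / 2) K lam (⌊x⌋₊ : ℝ) → Reg δ (max K 1) (2 * lam + 1) x := by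
  obtain ⟨x1, hx1⟩ := (Real.tendsto_log_atTop.eventually (eventually_ge_atTop (2 / δ))).exists_forall_of_atTop
  obtain ⟨x2, hx2⟩ := (Real.isLittleO_log_id_atTop.def
    (show 0 < 1 / (2 * K) by positivity)).exists_forall_of_atTop
  refine ⟨max (max x1 x2) 4, fun x hx hreg H hH1 hH2 => ?_⟩
  have hxx1 : x1 ≤ x := ((le_max_left _ _).trans (le_max_left _ _)).trans hx
  have hxx2 : x2 ≤ x := ((le_max_right _ _).trans (le_max_left _ _)).trans hx
  have hx4 : 4 ≤ x := (le_max_right _ _).trans hx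
  have hx0 : 0 ≤ x := by linarith
  set m := ⌊x⌋₊ with hm
  have hmx : (m : ℝ) ≤ x := Nat.floor_le hx0
  have hxm : x < m + 1 := Nat.lt_floor_add_one x
  have hm3 : (4 : ℝ) ≤ m := by
    have : 4 ≤ m := Nat.le_floor (by exact_mod_cast hx4)
    exact_mod_cast this
  have hlm : 0 < Real.log m := Real.log_pos (by linarith)
  have hlmx : Real.log m ≤ Real.log x := Real.log_le_log (by linarith) hmx
  have hlx : 0 < Real.log x := by linarith
  have hlx2 : Real.log x ≤ 2 * Real.log m := by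
    have h1 : x ≤ (m : ℝ) ^ 2 := by nlinarith
    have h2 := Real.log_le_log (by linarith) h1
    rw [Real.log_pow] at h2
    push_cast at h2
    exact h2
  have hHlog : Real.log x ≤ H := by
    have : 1 * Real.log x ≤ max K 1 * Real.log x := mul_le_mul_of_nonneg_right (le_max_right _ _) hlx.le
    linarith
  have hHpos : 0 < H := by linarith
  have hHδ : 2 / δ ≤ H := (hx1 x hxx1).trans hHlog
  have hKlog : K * Real.log m ≤ m := by
    have h1 := hx2 x hxx2
    rw [Real.norm_of_nonneg hlx.le, id, Real.norm_of_nonneg hx0] at h1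
    have h2 : K * Real.log x ≤ K * (1 / (2 * K) * x) := mul_le_mul_of_nonneg_left h1 hK.le
    have h3 : K * (1 / (2 * K) * x) = x / 2 := by field_simp
    have h4 : K * Real.log m ≤ K * Real.log x := mul_le_mul_of_nonneg_left hlmx hK.le
    linarith
  set H' := min H m with hH'
  have hKH' : K * Real.log m ≤ H' := by
    apply le_min
    · have h1 : K * Real.log m ≤ max K 1 * Real.log x := by
        apply mul_le_mul (le_max_left _ _) hlmx hlm.le
        exact le_trans zero_le_one (le_max_right _ _)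
      linarith
    · exact hKlog
  obtain ⟨r1, r2⟩ := hreg H' hKH' (min_le_right _ _)
  have hH'H : H' ≤ H := min_le_left _ _
  have hHH' : H ≤ H' + 1 := by
    rw [hH']
    rcases le_total H m with h | h
    · rw [min_eq_left h]; linarith
    · rw [min_eq_right h]; linarith
  have hH'0 : 0 ≤ H' := le_trans (mul_nonneg hK.le hlm.le) hKH'
  constructor
  · have h1 : (piS (m : ℝ) H' : ℝ) ≤ piS x H := by
      exact_mod_cast (piS_mono hH'H).trans (piS_floor_le hx0)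
    refine le_trans ?_ (r1.trans h1)
    have h2 : (1 - δ) * H ≤ (1 - δ / 2) * H' := by
      rw [div_le_iff₀ hδ0] at hHδ
      nlinarith
    calc (1 - δ) * H / Real.log x ≤ (1 - δ / 2) * H' / Real.log x :=
          div_le_div_of_nonneg_right h2 hlx.le
      _ ≤ (1 - δ / 2) * H' / Real.log m := by
          apply div_le_div_of_nonneg_left _ hlm hlmx
          apply mul_nonneg (by linarith) hH'0
  · have h1 := piS_le_floor hx0 hHpos.le
    rw [← hm] at h1
    have h2 : piS (m : ℝ) H ≤ piS (m : ℝ) H' := by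
      rcases le_total H m with h | h
      · rw [hH', min_eq_left h]
      · rw [hH', min_eq_right h]
        unfold piS
        apply Finset.card_le_card
        intro p hp
        rw [mem_filter, mem_Ioc] at hp ⊢
        refine ⟨⟨hp.1.1, hp.1.2.trans ?_⟩, hp.2⟩
        have h3 : ⌊(m : ℝ) + H⌋₊ < m + m + 1 := by
          rw [Nat.floor_lt (by positivity)]
          push_cast
          linarith
        have h4 : m + m ≤ ⌊(m : ℝ) + (m : ℝ)⌋₊ := Nat.le_floor (by push_cast; exact le_rfl)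
        omega
    have h3 : (piS (m : ℝ) H : ℝ) ≤ piS (m : ℝ) H' := by exact_mod_cast h2
    have h4 : lam * H' / Real.log m ≤ 2 * lam * H / Real.log x := by
      rw [div_le_div_iff₀ hlm hlx]
      have h5 : lam * H' * Real.log x ≤ lam * H * (2 * Real.log m) := by
        apply mul_le_mul (mul_le_mul_of_nonneg_left hH'H hlam.le) hlx2 hlx.le
        exact mul_nonneg hlam.le hHpos.le
      linarith
    have h5 : 1 ≤ H / Real.log x := by rw [le_div_iff₀ hlx]; linarith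
    have h6 : (2 * lam + 1) * H / Real.log x = 2 * lam * H / Real.log x + H / Real.log x := by ring
    rw [h6]
    linarith

/-- the regular integers -/
def regSet (δ K lam : ℝ) : Set ℕ := {m : ℕ | Reg δ K lam (m : ℝ)}

lemma regSet_density {δ : ℝ} (hδ0 : 0 < δ) (hδ1 : δ < 1) : ∃ K lam ν : ℝ, 0 < K ∧ 0 < lam ∧ 0 < ν ∧
    ∀ ε : ℝ, 0 < ε → ∃ M0 : ℕ, ∀ M : ℕ, M0 ≤ M → (ν - ε) * M ≤ ((Ax (regSet δ K lam) 0 M).card : ℝ) := by
  classical
  obtain ⟨K, lam, ν, hK, hlam, hν, h⟩ := Pool.Agent.Results.MP_31d0eb_nt.AllScales.result δ hδ0 hδ1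
  refine ⟨K, lam, ν, hK, hlam, hν, fun ε hε => ?_⟩
  obtain ⟨M1, hM1⟩ := h.exists_forall_of_atTop
  obtain ⟨M2, hM2⟩ := exists_nat_ge (1 / ε)
  refine ⟨max M1 M2, fun M hM => ?_⟩
  have h1 := hM1 M ((le_max_left _ _).trans hM)
  have h2 : 1 / ε ≤ M := hM2.trans (by exact_mod_cast (le_max_right _ _).trans hM)
  rw [div_le_iff₀ hε] at h2
  have hsub : (Finset.range M).filter (fun n : ℕ =>
      ∀ H : ℝ, K * Real.log n ≤ H → H ≤ n →
        (1 - δ) * H / Real.log n ≤ piS n H ∧ (piS n H : ℝ) ≤ lam * H / Real.log n) ⊆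
      insert 0 (Ax (regSet δ K lam) 0 M) := by
    intro n hn
    rw [mem_filter, mem_range] at hn
    rw [mem_insert]
    rcases Nat.eq_zero_or_pos n with h0 | h0
    · exact Or.inl h0
    · right
      unfold Ax
      rw [mem_filter, mem_Ioc]
      exact ⟨⟨h0, hn.1.le⟩, hn.2⟩
  have h3 := (Finset.card_le_card hsub).trans (Finset.card_insert_le _ _)
  have h4 : (((Finset.range M).filter (fun n : ℕ =>
      ∀ H : ℝ, K * Real.log n ≤ H → H ≤ n →
        (1 - δ) * H / Real.log n ≤ piS n H ∧ (piS n H : ℝ) ≤ lam * H / Real.log n)).card : ℝ) ≤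
      ((Ax (regSet δ K lam) 0 M).card : ℝ) + 1 := by exact_mod_cast h3
  have h5 := h1.trans h4
  linarith

/-- **Regular points along `n^c`.** -/
theorem regular (C0 : ℝ) (hC0 : 1 ≤ C0) : ∃ E : Set ℝ, dimH E < 1 ∧ ∀ c : ℝ, 1 < c → c ≤ C0 → c ∉ E →
    ∀ δ : ℝ, 0 < δ → δ < 1 → ∃ K lam ρ : ℝ, 0 < K ∧ 0 < lam ∧ 0 < ρ ∧ ∃ N0 : ℕ, ∀ N : ℕ, N0 ≤ N →
      ρ * N ≤ (({n : ℕ | 1 ≤ n ∧ n ≤ N ∧ Reg δ K lam ((n : ℝ) ^ c)} : Set ℕ).ncard : ℝ) := by
  classical
  obtain ⟨κ, hκ, d, hd, hlaw⟩ := w15_full C0 hC0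
  have hk : ∀ k : ℕ, ∃ K lam ν : ℝ, 0 < K ∧ 0 < lam ∧ 0 < ν ∧
      ∀ ε : ℝ, 0 < ε → ∃ M0 : ℕ, ∀ M : ℕ, M0 ≤ M →
        (ν - ε) * M ≤ ((Ax (regSet (1 / ((k : ℝ) + 2) / 2) K lam) 0 M).card : ℝ) := by
    intro k
    apply regSet_density (by positivity)
    rw [div_div, div_lt_one (by positivity)]
    linarith [Nat.cast_nonneg (α := ℝ) k]
  choose K lam ν hK hlam hν hdens using hk
  choose E hE hlaw2 using fun k : ℕ => hlaw (regSet (1 / ((k : ℝ) + 2) / 2) (K k) (lam k))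
  refine ⟨⋃ k, E k, ?_, ?_⟩
  · rw [dimH_iUnion]
    refine lt_of_le_of_lt (iSup_le hE) ?_
    have : (1 : ENNReal) = ENNReal.ofReal 1 := by simp
    rw [this]
    exact (ENNReal.ofReal_lt_ofReal_iff (by norm_num)).mpr hd
  intro c hc1 hc2 hcE δ hδ0 hδ1
  obtain ⟨k, hkδ⟩ := exists_nat_gt (1 / δ)
  have hkδ' : 1 / ((k : ℝ) + 2) ≤ δ := by
    rw [div_le_iff₀ (by positivity)]
    rw [div_lt_iff₀ hδ0] at hkδ
    nlinarith
  have hcE' : c ∉ E k := fun h => hcE (Set.mem_iUnion.mpr ⟨k, h⟩)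
  obtain ⟨C, hC⟩ := hlaw2 k c hc1 hc2 hcE'
  have hinh := lower_inherit d2 hc1 hκ (hν k).le hC (hdens k)
  obtain ⟨N1, hN1⟩ := hinh (ν k / 2) (half_pos (hν k))
  have hδk0 : (0 : ℝ) < 1 / ((k : ℝ) + 2) := by positivity
  have hδk1 : 1 / ((k : ℝ) + 2) < 1 := by
    rw [div_lt_one (by positivity)]
    linarith [Nat.cast_nonneg (α := ℝ) k]
  obtain ⟨x0, hx0⟩ := reg_of_floor hδk0 hδk1 (hK k) (hlam k)
  have hT : Tendsto (fun n : ℕ => (n : ℝ) ^ c) atTop atTop :=
    (tendsto_rpow_atTop (by linarith)).comp tendsto_natCast_atTop_atTop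
  obtain ⟨n1, hn1⟩ := (hT.eventually (eventually_ge_atTop (max x0 2))).exists_forall_of_atTop
  obtain ⟨N2, hN2⟩ := exists_nat_ge ((n1 : ℝ) / (ν k / 4))
  refine ⟨max (K k) 1, 2 * lam k + 1, ν k / 4, lt_of_lt_of_le one_pos (le_max_right _ _),
    by have := hlam k; positivity, by have := hν k; positivity, max N1 N2, fun N hN => ?_⟩
  have h1 := hN1 N ((le_max_left _ _).trans hN)
  have h2 : (n1 : ℝ) / (ν k / 4) ≤ N := hN2.trans (by exact_mod_cast (le_max_right _ _).trans hN)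
  rw [div_le_iff₀ (by have := hν k; positivity)] at h2
  set G : Set ℕ := {n : ℕ | 1 ≤ n ∧ n ≤ N ∧ Reg δ (max (K k) 1) (2 * lam k + 1) ((n : ℝ) ^ c)} with hG
  set R : Set ℕ := {n : ℕ | 1 ≤ n ∧ n ≤ N ∧ ⌊(n : ℝ) ^ c⌋₊ ∈ regSet (1 / ((k : ℝ) + 2) / 2) (K k) (lam k)} with hR
  have hGfin : G.Finite := (Set.finite_Icc 1 N).subset fun n hn => ⟨hn.1, hn.2.1⟩
  have hsub : R ⊆ G ∪ ((Finset.range n1 : Finset ℕ) : Set ℕ) := by
    intro n hn
    obtain ⟨a1, a2, a3⟩ := hn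
    by_cases hnn : n < n1
    · right
      rw [Finset.mem_coe, mem_range]
      exact hnn
    · left
      push Not at hnn
      have h3 := hn1 n hnn
      have h4 := hx0 ((n : ℝ) ^ c) ((le_max_left _ _).trans h3) a3
      refine ⟨a1, a2, fun H hH1 hH2 => ?_⟩
      obtain ⟨b1, b2⟩ := h4 H hH1 hH2
      refine ⟨le_trans ?_ b1, b2⟩
      have hx2 : (2 : ℝ) ≤ (n : ℝ) ^ c := (le_max_right _ _).trans h3
      have hlog : 0 < Real.log ((n : ℝ) ^ c) := Real.log_pos (by linarith)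
      have hH0 : 0 ≤ H := by
        have : 0 ≤ max (K k) 1 * Real.log ((n : ℝ) ^ c) :=
          mul_nonneg (le_trans zero_le_one (le_max_right _ _)) hlog.le
        linarith
      apply div_le_div_of_nonneg_right _ hlog.le
      apply mul_le_mul_of_nonneg_right _ hH0
      linarith
  have h3 : (R.ncard : ℝ) ≤ G.ncard + n1 := by
    have h4 := Set.ncard_le_ncard hsub (hGfin.union (Finset.finite_toSet _))
    have h5 := Set.ncard_union_le G ((Finset.range n1 : Finset ℕ) : Set ℕ)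
    rw [Set.ncard_coe_finset, card_range] at h5
    exact_mod_cast h4.trans h5
  have h6 : (nN (regSet (1 / ((k : ℝ) + 2) / 2) (K k) (lam k)) c N : ℝ) = R.ncard := rfl
  rw [h6] at h1
  have hνk := hν k
  have e : (ν k - ν k / 2) * (N : ℝ) = ν k / 2 * N := by ring
  rw [e] at h1
  linarith

end Pool.Agent.Y854.PS
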