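import Pool.Agent.Y854.PS.Grid
import Pool.Agent.Y854.PS.Bucket

/-! One dyadic scale. -/

set_option autoImplicit false

open Finset Filter

namespace Pool.Agent.Y854.PS

/-- the sequence of the starting points -/
noncomputable def xs (α c : ℝ) (n : ℕ) : ℝ := α * (n : ℝ) ^ c

/-- the integer parts -/
noncomputable def ms (α c : ℝ) (n : ℕ) : ℕ := ⌊xs α c n⌋₊

lemma xs_nonneg {α c : ℝ} (hα : 0 < α) (n : ℕ) : 0 ≤ xs α c n := by
  unfold xs; positivity

lemma xs_mono {α c : ℝ} (hα : 0 < α) (hc : 0 ≤ c) {n n' : ℕ} (h : n ≤ n') : xs α c n ≤ xs α c n' := by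
  unfold xs
  apply mul_le_mul_of_nonneg_left _ hα.le
  exact Real.rpow_le_rpow (Nat.cast_nonneg _) (by exact_mod_cast h) hc

lemma ms_mono {α c : ℝ} (hα : 0 < α) (hc : 0 ≤ c) {n n' : ℕ} (h : n ≤ n') : ms α c n ≤ ms α c n' :=
  Nat.floor_le_floor (xs_mono hα hc h)

lemma xs_gap {α c : ℝ} (hα : 0 < α) (hc : 1 < c) : ∃ n0 : ℕ, ∀ n, n0 ≤ n → xs α c n + 1 ≤ xs α c (n + 1) := by
  have h1 : Tendsto (fun n : ℕ => (n : ℝ) ^ (c - 1)) atTop atTop :=
    (tendsto_rpow_atTop (by linarith)).comp tendsto_natCast_atTop_atTop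
  obtain ⟨n1, hn1⟩ := (h1.eventually (eventually_ge_atTop (1 / (α * c)))).exists_forall_of_atTop
  refine ⟨max n1 1, fun n hn => ?_⟩
  have hn1' := hn1 n ((le_max_left _ _).trans hn)
  have hn0 : 1 ≤ n := (le_max_right _ _).trans hn
  have hn0' : (0 : ℝ) < n := by exact_mod_cast hn0
  have hc0 : 0 < c := by linarith
  have hαc : 0 < α * c := mul_pos hα hc0
  unfold xs
  have e : ((n + 1 : ℕ) : ℝ) ^ c = (n : ℝ) ^ c * (1 + 1 / (n : ℝ)) ^ c := by
    rw [← Real.mul_rpow hn0'.le (by positivity)]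
    congr 1
    push_cast
    field_simp
  have h2 := one_add_mul_self_le_rpow_one_add (s := 1 / (n : ℝ)) (by
    have : 0 < 1 / (n : ℝ) := by positivity
    linarith) hc.le
  have h3 : (n : ℝ) ^ c * (1 + c * (1 / (n : ℝ))) ≤ (n : ℝ) ^ c * (1 + 1 / (n : ℝ)) ^ c :=
    mul_le_mul_of_nonneg_left h2 (by positivity)
  have h4 : (n : ℝ) ^ c * (1 + c * (1 / (n : ℝ))) = (n : ℝ) ^ c + c * (n : ℝ) ^ (c - 1) := by
    rw [Real.rpow_sub hn0', Real.rpow_one]
    field_simp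
  rw [div_le_iff₀ hαc] at hn1'
  rw [e]
  nlinarith

lemma ms_strict {α c : ℝ} (hα : 0 < α) (hc : 1 < c) : ∃ i0 : ℕ, ∀ n n', 2 ^ i0 < ms α c n → n < n' →
    ms α c n < ms α c n' := by
  obtain ⟨n0, h0⟩ := xs_gap hα hc
  refine ⟨ms α c n0, fun n n' hn hnn' => ?_⟩
  have h1 : n0 ≤ n := by
    by_contra hcon
    push Not at hcon
    have h2 := ms_mono hα (by linarith : 0 ≤ c) hcon.le
    have h3 := (Nat.lt_two_pow_self (n := ms α c n0)).le
    omega
  have h2 : ms α c n < ms α c (n + 1) := by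
    unfold ms
    have h3 := h0 n h1
    have h4 := Nat.floor_le_floor h3
    rw [Nat.floor_add_one (xs_nonneg hα n)] at h4
    omega
  exact lt_of_lt_of_le h2 (ms_mono hα (by linarith) hnn')

lemma block_card {α c : ℝ} (hα : 0 < α) (hc : 1 < c) : ∃ C : ℝ, 0 < C ∧ ∀ (i : ℕ) (Q : Finset ℕ),
    (∀ n ∈ Q, 1 ≤ n ∧ ms α c n ≤ 2 ^ (i + 1)) → (Q.card : ℝ) ≤ C * ((2 : ℝ) ^ i) ^ (1 / c) := by
  have hc0 : 0 < c := by linarith
  refine ⟨(4 / α) ^ (1 / c), Real.rpow_pos_of_pos (by positivity) _, fun i Q hQ => ?_⟩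
  have hX : (1 : ℝ) ≤ (2 : ℝ) ^ i := one_le_pow₀ (by norm_num)
  rw [← Real.mul_rpow (by positivity) (by positivity)]
  set B := (4 / α * (2 : ℝ) ^ i) ^ (1 / c) with hB
  have hB0 : 0 ≤ B := by positivity
  have h1 : ∀ n ∈ Q, 1 ≤ n ∧ (n : ℝ) ≤ B := by
    intro n hn
    obtain ⟨h1, h2⟩ := hQ n hn
    refine ⟨h1, ?_⟩
    have h3 : xs α c n < ms α c n + 1 := Nat.lt_floor_add_one _
    have h4 : (ms α c n : ℝ) ≤ 2 ^ (i + 1) := by exact_mod_cast h2
    have h5 : α * (n : ℝ) ^ c ≤ 4 * (2 : ℝ) ^ i := by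
      unfold xs at h3
      rw [pow_succ] at h4
      linarith
    have h6 : (n : ℝ) ^ c ≤ 4 / α * (2 : ℝ) ^ i := by
      rw [div_mul_eq_mul_div, le_div_iff₀ hα]
      linarith
    have h7 : ((n : ℝ) ^ c) ^ (1 / c) ≤ B := Real.rpow_le_rpow (by positivity) h6 (by positivity)
    rwa [← Real.rpow_mul (Nat.cast_nonneg n), mul_one_div_cancel hc0.ne', Real.rpow_one] at h7
  have h2 : Q ⊆ Icc 1 ⌊B⌋₊ := by
    intro n hn
    rw [mem_Icc]
    exact ⟨(h1 n hn).1, Nat.le_floor (h1 n hn).2⟩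
  have h3 := Finset.card_le_card h2
  rw [Nat.card_Icc, Nat.add_sub_cancel] at h3
  calc (Q.card : ℝ) ≤ (⌊B⌋₊ : ℝ) := by exact_mod_cast h3
    _ ≤ B := Nat.floor_le hB0

/-- the number of buckets times the error -/
lemma tail_bound (i : ℕ) (C G δ : ℝ) (hC : 0 < C) (hG : 0 < G) (hδ : 0 < δ) (hi : 4 * C / δ ≤ i) :
    (((i + 1) * i + 1 : ℕ) : ℝ) * (2 * (C * G / ((i : ℝ) + 2) ^ 4)) ≤ (δ / 2) * G := by
  have hi00 : (0 : ℝ) ≤ i := Nat.cast_nonneg i
  have hi0 : (0 : ℝ) < (i : ℝ) + 2 := by positivity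
  have h1 : (((i + 1) * i + 1 : ℕ) : ℝ) ≤ ((i : ℝ) + 2) ^ 2 := by
    push_cast
    nlinarith
  have h2 : 4 * C ≤ i * δ := by rwa [div_le_iff₀ hδ] at hi
  have h3 : (i : ℝ) ≤ ((i : ℝ) + 2) ^ 2 := by nlinarith
  have h4 : 4 * C ≤ ((i : ℝ) + 2) ^ 2 * δ := h2.trans (mul_le_mul_of_nonneg_right h3 hδ.le)
  have h5 : ((i : ℝ) + 2) ^ 2 * (2 * (C * G / ((i : ℝ) + 2) ^ 4)) = (4 * C) * (G / 2) / ((i : ℝ) + 2) ^ 2 := by
    field_simp
    ring
  have h6 : (4 * C) * (G / 2) / ((i : ℝ) + 2) ^ 2 ≤ (δ / 2) * G := by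
    rw [div_le_iff₀ (by positivity)]
    calc (4 * C) * (G / 2) ≤ (((i : ℝ) + 2) ^ 2 * δ) * (G / 2) := mul_le_mul_of_nonneg_right h4 (by positivity)
      _ = δ / 2 * G * ((i : ℝ) + 2) ^ 2 := by ring
  calc (((i + 1) * i + 1 : ℕ) : ℝ) * (2 * (C * G / ((i : ℝ) + 2) ^ 4)) ≤
      ((i : ℝ) + 2) ^ 2 * (2 * (C * G / ((i : ℝ) + 2) ^ 4)) := mul_le_mul_of_nonneg_right h1 (by positivity)
    _ ≤ _ := by rw [h5]; exact h6

/-- combination of the two inequalities in one fibre -/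
lemma fib_comb (η E k F g1 g2 : ℝ) (hη0 : 0 < η) (hη1 : η < 1) (hE : 0 < E) (f1 : |g1 - k| ≤ E)
    (f2 : |g2 - k| ≤ E) (h1 : (1 - η) * g1 ≤ F) (h2 : F ≤ (1 + η) * g2) : |F - k| ≤ η * k + 2 * E := by
  have k1 := (abs_le.mp f1).1
  have k2 := (abs_le.mp f2).2
  have k3 : (1 - η) * (k - E) ≤ (1 - η) * g1 := mul_le_mul_of_nonneg_left (by linarith) (by linarith)
  have k4 : (1 + η) * g2 ≤ (1 + η) * (k + E) := mul_le_mul_of_nonneg_left (by linarith) (by linarith)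
  have k5 : 0 < η * E := mul_pos hη0 hE
  have k6 : η * E ≤ E := mul_le_of_le_one_left hE.le hη1.le
  have e1 : (1 - η) * (k - E) = k - η * k - E + η * E := by ring
  have e2 : (1 + η) * (k + E) = k + η * k + E + η * E := by ring
  rw [abs_le]
  constructor <;> linarith

/-- the largest length for which the buckets are used -/
noncomputable def Yv (i : ℕ) : ℝ := (2 : ℝ) ^ i / Real.log ((2 : ℝ) ^ i) ^ 6

/-- one dyadic scale, lengths up to `Yv i` -/
theorem scale (α c a κ : ℝ) (hα : 0 < α) (hc : 1 < c) (ha : 0 < a) (hκ : 0 < κ)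
    (hS : Samp (ms α c) c a κ) (δ : ℝ) (hδ : 0 < δ) : ∃ K0 : ℝ, ∃ i0 : ℕ, ∀ i : ℕ, i0 ≤ i →
    ∀ (N : ℕ) (H : ℕ → ℝ), MonotoneOn H (Set.Icc 1 N) → ∀ Q : Finset ℕ,
      (∀ n, n ∈ Q ↔ 1 ≤ n ∧ n ≤ N ∧ 2 ^ i < ms α c n ∧ ms α c n ≤ 2 ^ (i + 1) ∧ H n ≤ Yv i) →
      (∀ n ∈ Q, K0 ≤ H n) →
      |∑ n ∈ Q, (ff (xs α c n) (H n) - 1)| ≤ δ * ((2 : ℝ) ^ i) ^ (1 / c) := by
  classical
  obtain ⟨Cb, hCb, hblock⟩ := block_card hα hc
  obtain ⟨C, hC, i1, hbucket⟩ := bucket (ms α c) c a κ hc ha hκ hS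
  obtain ⟨i2, hstrict⟩ := ms_strict hα hc
  set η : ℝ := min (1 / 2) (δ / (2 * Cb)) with hη
  have hη0 : 0 < η := lt_min (by norm_num) (by positivity)
  have hη1 : η < 1 := lt_of_le_of_lt (min_le_left _ _) (by norm_num)
  have hηCb : η * Cb ≤ δ / 2 := by
    have h1 : η ≤ δ / (2 * Cb) := min_le_right _ _
    calc η * Cb ≤ δ / (2 * Cb) * Cb := mul_le_mul_of_nonneg_right h1 hCb.le
      _ = δ / 2 := by field_simp
  obtain ⟨K0, hK4, i3, hsand⟩ := sandwich η hη0 hη1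
  obtain ⟨i4, hi4⟩ := exists_nat_ge (4 * C / δ)
  refine ⟨K0, max (max i1 i2) (max (max i3 i4) 16), ?_⟩
  intro i hi N H hH Q hQ hK
  have hii1 : i1 ≤ i := ((le_max_left _ _).trans (le_max_left _ _)).trans hi
  have hii2 : i2 ≤ i := ((le_max_right _ _).trans (le_max_left _ _)).trans hi
  have hii3 : i3 ≤ i := (((le_max_left _ _).trans (le_max_left _ _)).trans (le_max_right _ _)).trans hi
  have hii4 : i4 ≤ i := (((le_max_right _ _).trans (le_max_left _ _)).trans (le_max_right _ _)).trans hi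
  have hi16 : 16 ≤ i := ((le_max_right _ _).trans (le_max_right _ _)).trans hi
  set X : ℝ := (2 : ℝ) ^ i with hX
  have hXpos : 0 < X := by positivity
  have hlX : 3 ≤ Real.log X := by
    have h1 := log_two_pow_ge (show 1 ≤ i by omega)
    have h2 : (16 : ℝ) ≤ i := by exact_mod_cast hi16
    rw [← hX] at h1
    linarith
  set G : ℝ := X ^ (1 / c) with hG
  have hGpos : 0 < G := Real.rpow_pos_of_pos hXpos _
  set E : ℝ := C * G / ((i : ℝ) + 2) ^ 4 with hE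
  have hE0 : 0 < E := by positivity
  have hYX : Yv i ≤ X / Real.log X ^ 5 / 3 := by
    unfold Yv
    rw [← hX, div_div]
    apply div_le_div_of_nonneg_left hXpos.le (by positivity)
    have : 0 < Real.log X ^ 5 := by positivity
    calc Real.log X ^ 5 * 3 ≤ Real.log X ^ 5 * Real.log X := mul_le_mul_of_nonneg_left hlX this.le
      _ = Real.log X ^ 6 := by ring
  have hYX1 : Yv i ≤ X := by
    unfold Yv
    rw [← hX]
    apply div_le_self hXpos.le
    apply one_le_pow₀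
    linarith
  -- one fibre
  have hfib : ∀ j ∈ range ((i + 1) * i + 1), |∑ n ∈ Q.filter (fun n => jj i (H n) = j),
      (ff (xs α c n) (H n) - 1)| ≤ η * ((Q.filter (fun n => jj i (H n) = j)).card : ℝ) + 2 * E := by
    intro j hj
    rw [mem_range] at hj
    set S := Q.filter (fun n => jj i (H n) = j) with hSdef
    rcases S.eq_empty_or_nonempty with hemp | hne
    · rw [hemp]; simp; positivity
    have hmemS : ∀ n ∈ S, n ∈ Q ∧ jj i (H n) = j := fun n hn => by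
      rw [hSdef, mem_filter] at hn; exact hn
    obtain ⟨n1, hn1, hmin⟩ : ∃ n1 ∈ S, ∀ n ∈ S, n1 ≤ n := ⟨S.min' hne, S.min'_mem hne, fun n hn => S.min'_le n hn⟩
    obtain ⟨n2, hn2, hmax⟩ : ∃ n2 ∈ S, ∀ n ∈ S, n ≤ n2 := ⟨S.max' hne, S.max'_mem hne, fun n hn => S.le_max' n hn⟩
    obtain ⟨hn1Q, hn1j⟩ := hmemS n1 hn1
    obtain ⟨hn2Q, hn2j⟩ := hmemS n2 hn2
    obtain ⟨a1, a2, a3, a4, a5⟩ := (hQ n1).mp hn1Q
    obtain ⟨b1, b2, b3, b4, b5⟩ := (hQ n2).mp hn2Q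
    have hH1 : ∀ n ∈ Q, 1 ≤ H n := fun n hn => by linarith [hK n hn]
    have hchar : ∀ n, n ∈ S ↔ 1 ≤ n ∧ ms α c n1 - 1 < ms α c n ∧ ms α c n ≤ ms α c n2 := by
      intro n
      constructor
      · intro hn
        have h1 := hmin n hn
        have h2 := hmax n hn
        obtain ⟨hnQ, -⟩ := hmemS n hn
        have h3 := ms_mono hα (by linarith : 0 ≤ c) h1
        have h4 := ms_mono hα (by linarith : 0 ≤ c) h2
        exact ⟨((hQ n).mp hnQ).1, by omega, h4⟩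
      · rintro ⟨h1, h2, h3⟩
        have h2pow : 2 ^ i2 ≤ 2 ^ i := Nat.pow_le_pow_right (by norm_num) hii2
        have h4 : n1 ≤ n := by
          by_contra hcon
          push Not at hcon
          have := hstrict n n1 (by omega) hcon
          omega
        have h5 : n ≤ n2 := by
          by_contra hcon
          push Not at hcon
          have := hstrict n2 n (by omega) hcon
          omega
        have hnN : n ≤ N := h5.trans b2
        have h6 : H n1 ≤ H n := hH ⟨a1, a2⟩ ⟨h1, hnN⟩ h4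
        have h7 : H n ≤ H n2 := hH ⟨h1, hnN⟩ ⟨b1, b2⟩ h5
        have h8 := jj_mono (i := i) (hH1 n1 hn1Q) h6
        have h9 := jj_mono (i := i) ((hH1 n1 hn1Q).trans h6) h7
        rw [hSdef, mem_filter]
        refine ⟨(hQ n).mpr ⟨h1, hnN, by omega, by omega, h7.trans b5⟩, by omega⟩
    -- the lengths
    have hHn1 := hK n1 hn1Q
    have c1 : hg i j ≤ H n1 := by rw [← hn1j]; exact hg_jj_le (hH1 n1 hn1Q)
    have c2 : H n1 < hg i (j + 1) := by rw [← hn1j]; exact lt_hg_jj (hH1 n1 hn1Q)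
    have c3 := hg_succ i j
    have c0 := hg_pos i j
    have c4 : (2 : ℝ) ^ (1 / ((i : ℝ) + 1)) ≤ 2 := by
      refine (two_rpow_le i).trans ?_
      have : 1 / ((i : ℝ) + 1) ≤ 1 := by
        rw [div_le_one (by positivity)]
        linarith [Nat.cast_nonneg (α := ℝ) i]
      linarith
    have c5 : hg i (j + 1) ≤ 2 * hg i j := by
      rw [c3]
      nlinarith
    have c6 : 2 ≤ hg i j := by linarith
    have d1 : 0 < hs i (2 * j) := by
      rw [hs_low]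
      exact Nat.floor_pos.mpr (by linarith)
    have d2 : (hs i (2 * j) : ℝ) ≤ X / Real.log X ^ 5 := by
      rw [hs_low]
      have h1 := Nat.floor_le c0.le
      have h2 : 0 ≤ X / Real.log X ^ 5 := by positivity
      linarith
    have d3 : 0 < hs i (2 * (j + 1) + 1) := by rw [hs_up]; omega
    have d4 : (hs i (2 * (j + 1) + 1) : ℝ) ≤ X / Real.log X ^ 5 := by
      rw [hs_up]
      push_cast
      have h1 := Nat.floor_le (hg_pos i (j + 1)).le
      linarith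
    have e1 : 2 * j < 2 * (i + 2) ^ 2 := by nlinarith
    have e2 : 2 * (j + 1) + 1 < 2 * (i + 2) ^ 2 := by nlinarith
    have hu1 : 2 ^ i ≤ ms α c n1 - 1 := by omega
    have hu2 : ms α c n1 - 1 ≤ ms α c n2 := by
      have := ms_mono hα (by linarith : 0 ≤ c) (hmin n2 hn2)
      omega
    have f1 := hbucket i hii1 _ e1 d1 (by rw [← hX]; exact d2) _ _ hu1 hu2 b4 S hchar
    have f2 := hbucket i hii1 _ e2 d3 (by rw [← hX]; exact d4) _ _ hu1 hu2 b4 S hchar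
    rw [← hX, ← hG, ← hE] at f1 f2
    -- the sandwich
    have hsw : ∀ n ∈ S, (1 - η) * gf (hs i (2 * j)) (ms α c n) ≤ ff (xs α c n) (H n) ∧
        ff (xs α c n) (H n) ≤ (1 + η) * gf (hs i (2 * (j + 1) + 1)) (ms α c n) := by
      intro n hn
      obtain ⟨hnQ, hnj⟩ := hmemS n hn
      have h1 := hsand i hii3 (xs α c n) (H n) (hK n hnQ) (by
        have h2 := ((hQ n).mp hnQ).2.2.1
        unfold ms at h2
        exact_mod_cast h2.le)
      rw [hnj] at h1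
      exact h1
    have g1 : (1 - η) * ∑ n ∈ S, gf (hs i (2 * j)) (ms α c n) ≤ ∑ n ∈ S, ff (xs α c n) (H n) := by
      rw [Finset.mul_sum]
      exact Finset.sum_le_sum fun n hn => (hsw n hn).1
    have g2 : ∑ n ∈ S, ff (xs α c n) (H n) ≤ (1 + η) * ∑ n ∈ S, gf (hs i (2 * (j + 1) + 1)) (ms α c n) := by
      rw [Finset.mul_sum]
      exact Finset.sum_le_sum fun n hn => (hsw n hn).2
    rw [Finset.sum_sub_distrib, sum_const, nsmul_eq_mul, mul_one]
    exact fib_comb η E _ _ _ _ hη0 hη1 hE0 f1 f2 g1 g2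
  -- the sum
  have hmaps : ∀ n ∈ Q, jj i (H n) ∈ range ((i + 1) * i + 1) := by
    intro n hn
    rw [mem_range]
    have h1 := hK n hn
    have h2 := ((hQ n).mp hn).2.2.2.2
    have := jj_le (i := i) (H := H n) (by linarith) (h2.trans hYX1)
    omega
  rw [← Finset.sum_fiberwise_of_maps_to hmaps]
  refine (Finset.abs_sum_le_sum_abs _ _).trans ((Finset.sum_le_sum hfib).trans ?_)
  rw [Finset.sum_add_distrib, ← Finset.mul_sum, sum_const, card_range, nsmul_eq_mul]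
  have hc1 : ∑ j ∈ range ((i + 1) * i + 1), ((Q.filter (fun n => jj i (H n) = j)).card : ℝ) = (Q.card : ℝ) := by
    have := Finset.card_eq_sum_card_fiberwise hmaps
    rw [this]
    push_cast
    rfl
  rw [hc1]
  have hc2 : (Q.card : ℝ) ≤ Cb * G := hblock i Q (fun n hn => ⟨((hQ n).mp hn).1, ((hQ n).mp hn).2.2.2.1⟩)
  have hc3 : η * (Q.card : ℝ) ≤ (δ / 2) * G := by
    calc η * (Q.card : ℝ) ≤ η * (Cb * G) := mul_le_mul_of_nonneg_left hc2 hη0.le
      _ = (η * Cb) * G := by ring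
      _ ≤ (δ / 2) * G := mul_le_mul_of_nonneg_right hηCb hGpos.le
  have hc4 : (((i + 1) * i + 1 : ℕ) : ℝ) * (2 * E) ≤ (δ / 2) * G := by
    exact tail_bound i C G δ hC hGpos hδ (hi4.trans (by exact_mod_cast hii4))
  linarith

end Pool.Agent.Y854.PS
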