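import Pool.Agent.Y854.PS.Scale
import Pool.Agent.Y854.PS.Point

/-! The mean value over all `n ≤ N`. -/

set_option autoImplicit false

open Finset Filter

namespace Pool.Agent.Y854.PS

lemma abs_ff_le {x H : ℝ} (hx : 0 ≤ x) (hH : 1 ≤ H) : |ff x H| ≤ 2 * |Real.log x| := by
  have hHpos : 0 < H := by linarith
  unfold ff
  rw [abs_div, abs_mul, abs_of_pos hHpos, abs_of_nonneg (pr_nonneg x H), div_le_iff₀ hHpos]
  have h1 := pr_le_pcn (x := x) (H := H) (H' := H) hx (by linarith) le_rfl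
  have h2 : (pcn ⌊x⌋₊ (⌊H⌋₊ + 1) : ℝ) ≤ ((⌊H⌋₊ + 1 : ℕ) : ℝ) := by exact_mod_cast pcn_le _ _
  push_cast at h2
  have h3 := Nat.floor_le hHpos.le
  have h5 : pr x H ≤ 2 * H := by linarith
  calc pr x H * |Real.log x| ≤ (2 * H) * |Real.log x| := mul_le_mul_of_nonneg_right h5 (abs_nonneg _)
    _ = 2 * |Real.log x| * H := by ring

/-- the scale of a natural number -/
def sc (m : ℕ) : ℕ := Nat.log 2 (m - 1)

lemma sc_iff {m i : ℕ} (hm : 2 ≤ m) : sc m = i ↔ 2 ^ i < m ∧ m ≤ 2 ^ (i + 1) := by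
  unfold sc
  rw [Nat.log_eq_iff (Or.inr ⟨by norm_num, by omega⟩)]
  omega

lemma sc_mono {m m' : ℕ} (h : m ≤ m') : sc m ≤ sc m' := Nat.log_mono_right (by omega)

lemma Yv_ge {x : ℝ} {i : ℕ} (hi : 16 ≤ i) (h1 : (2 : ℝ) ^ i ≤ x) (h2 : x ≤ 3 * (2 : ℝ) ^ i) :
    x / Real.log x ^ 7 ≤ Yv i := by
  unfold Yv
  set X : ℝ := (2 : ℝ) ^ i with hX
  have hXpos : 0 < X := by positivity
  have hlX : 3 ≤ Real.log X := by
    have h1 := log_two_pow_ge (show 1 ≤ i by omega)
    have h2 : (16 : ℝ) ≤ i := by exact_mod_cast hi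
    rw [← hX] at h1
    linarith
  have h3 : Real.log X ≤ Real.log x := Real.log_le_log hXpos h1
  have h4 : Real.log X ^ 7 ≤ Real.log x ^ 7 := pow_le_pow_left₀ (by linarith) h3 7
  have hl0 : 0 < Real.log X := by linarith
  calc x / Real.log x ^ 7 ≤ (3 * X) / Real.log X ^ 7 :=
        div_le_div₀ (by positivity) h2 (by positivity) h4
    _ ≤ X / Real.log X ^ 6 := by
        rw [div_le_div_iff₀ (by positivity) (by positivity)]
        have : 3 * Real.log X ^ 6 ≤ Real.log X * Real.log X ^ 6 :=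
          mul_le_mul_of_nonneg_right hlX (by positivity)
        nlinarith

/-- number of `n` for which the length is large compared with the starting point -/
lemma T_card {α c K δ : ℝ} (hα : 0 < α) (hc : 1 < c) (hδ : 0 < δ) (hK : (12 / δ) ^ c ≤ K) (N : ℕ) (H : ℕ → ℝ)
    (hH : ∀ n ∈ Icc 1 N, H n ≤ xs α c N) (T : Finset ℕ)
    (hT : ∀ n ∈ T, n ∈ Icc 1 N ∧ K * xs α c n < H n) : (T.card : ℝ) ≤ N * δ / 12 := by
  have hc0 : 0 < c := by linarith
  have h1 : ∀ n ∈ T, 1 ≤ n ∧ (n : ℝ) ≤ N * δ / 12 := by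
    intro n hn
    obtain ⟨h1, h2⟩ := hT n hn
    have h3 := hH n h1
    rw [mem_Icc] at h1
    refine ⟨h1.1, ?_⟩
    have h4 : K * xs α c n < xs α c N := lt_of_lt_of_le h2 h3
    unfold xs at h4
    have h5 : K * (n : ℝ) ^ c < (N : ℝ) ^ c := by
      have : α * (K * (n : ℝ) ^ c) < α * (N : ℝ) ^ c := by linarith
      exact lt_of_mul_lt_mul_left this hα.le
    have h6 : ((12 / δ) * (n : ℝ)) ^ c < (N : ℝ) ^ c := by
      rw [Real.mul_rpow (by positivity) (Nat.cast_nonneg _)]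
      exact lt_of_le_of_lt (mul_le_mul_of_nonneg_right hK (by positivity)) h5
    have h7 : (12 / δ) * (n : ℝ) < N := by
      by_contra hcon
      push Not at hcon
      have := Real.rpow_le_rpow (Nat.cast_nonneg N) hcon hc0.le
      linarith
    rw [div_mul_eq_mul_div, div_lt_iff₀ hδ] at h7
    linarith
  have h2 : T ⊆ Icc 1 ⌊(N : ℝ) * δ / 12⌋₊ := by
    intro n hn
    rw [mem_Icc]
    exact ⟨(h1 n hn).1, Nat.le_floor (h1 n hn).2⟩
  have h3 := Finset.card_le_card h2
  rw [Nat.card_Icc, Nat.add_sub_cancel] at h3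
  calc (T.card : ℝ) ≤ (⌊(N : ℝ) * δ / 12⌋₊ : ℝ) := by exact_mod_cast h3
    _ ≤ _ := Nat.floor_le (by positivity)

/-- the geometric sum -/
lemma geo {c : ℝ} (hc : 1 < c) : ∃ C : ℝ, 0 < C ∧ ∀ I : ℕ,
    ∑ i ∈ range (I + 1), ((2 : ℝ) ^ i) ^ (1 / c) ≤ C * ((2 : ℝ) ^ I) ^ (1 / c) := by
  have hc0 : 0 < c := by linarith
  set q : ℝ := (2 : ℝ) ^ (1 / c) with hq
  have hq1 : 1 < q := Real.one_lt_rpow (by norm_num) (by positivity)
  have hq0 : 0 < q - 1 := by linarith
  refine ⟨q / (q - 1), by positivity, fun I => ?_⟩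
  have e : ∀ i : ℕ, ((2 : ℝ) ^ i) ^ (1 / c) = q ^ i := fun i => pow_form' i _
  simp only [e]
  rw [geom_sum_eq hq1.ne', div_mul_eq_mul_div]
  apply div_le_div_of_nonneg_right _ hq0.le
  rw [pow_succ]
  linarith

/-- **The mean value.** -/
theorem total (α c a κ : ℝ) (hα : 0 < α) (hc : 1 < c) (ha : 0 < a) (hκ : 0 < κ)
    (hS : Samp (ms α c) c a κ) (ψ : ℕ → ℝ) (hψ : Tendsto ψ atTop atTop) (δ : ℝ) (hδ : 0 < δ) :
    ∃ N0 : ℕ, ∀ N : ℕ, N0 ≤ N → ∀ H : ℕ → ℝ, MonotoneOn H (Set.Icc 1 N) →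
      (∀ n ∈ Icc 1 N, 1 ≤ H n ∧ ψ n ≤ H n ∧ H n ≤ xs α c N) →
      |∑ n ∈ Icc 1 N, (ff (xs α c n) (H n) - 1)| ≤ δ * N := by
  classical
  have hc0 : 0 < c := by linarith
  obtain ⟨Cb, hCb, hblock⟩ := block_card hα hc
  obtain ⟨Cg, hCg, hgeo⟩ := geo hc
  set Ca : ℝ := Cg * α ^ (1 / c) with hCa
  have hCapos : 0 < Ca := mul_pos hCg (Real.rpow_pos_of_pos hα _)
  set K : ℝ := max 1 ((12 / δ) ^ c) with hK
  have hK1 : 1 ≤ K := le_max_left _ _
  set δ1 : ℝ := δ / (4 * Ca) with hδ1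
  have hδ1pos : 0 < δ1 := by positivity
  set δ2 : ℝ := min 1 (δ / (4 * Ca * Cb)) with hδ2
  have hδ2pos : 0 < δ2 := lt_min one_pos (by positivity)
  have hδ2Cb : δ2 * Cb ≤ δ1 := by
    have h1 : δ2 ≤ δ / (4 * Ca * Cb) := min_le_right _ _
    calc δ2 * Cb ≤ δ / (4 * Ca * Cb) * Cb := mul_le_mul_of_nonneg_right h1 hCb.le
      _ = δ1 := by rw [hδ1]; field_simp
  obtain ⟨K0, i1, hscale⟩ := scale α c a κ hα hc ha hκ hS δ1 hδ1pos
  obtain ⟨x0, hpoint⟩ := pointwise K hK1 δ2 hδ2pos (min_le_left _ _)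
  obtain ⟨n1, hn1⟩ := (hψ.eventually (eventually_ge_atTop K0)).exists_forall_of_atTop
  obtain ⟨i2, hi2⟩ := exists_nat_ge x0
  set i0 : ℕ := max (max i1 i2) (max (ms α c n1) 16) with hi0
  have hi01 : i1 ≤ i0 := (le_max_left _ _).trans (le_max_left _ _)
  have hi02 : i2 ≤ i0 := (le_max_right _ _).trans (le_max_left _ _)
  have hi03 : ms α c n1 ≤ i0 := (le_max_left _ _).trans (le_max_right _ _)
  have hi04 : 16 ≤ i0 := (le_max_right _ _).trans (le_max_right _ _)
  -- small `n`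
  set Bd : ℝ := 1 + 2 * (|Real.log α| + Real.log ((2 : ℝ) ^ (i0 + 1))) with hBd
  have hlog0 : 0 ≤ Real.log ((2 : ℝ) ^ (i0 + 1)) := Real.log_nonneg (one_le_pow₀ (by norm_num))
  have hBdpos : 0 < Bd := by
    have := abs_nonneg (Real.log α)
    positivity
  obtain ⟨N1, hN1⟩ := exists_nat_ge ((Cb * ((2 : ℝ) ^ i0) ^ (1 / c)) * Bd / (δ / 4))
  refine ⟨max N1 1, fun N hN H hmono hH => ?_⟩
  have hNN1 : N1 ≤ N := (le_max_left _ _).trans hN
  have hN1' : 1 ≤ N := (le_max_right _ _).trans hN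
  have hNpos : (0 : ℝ) < N := by exact_mod_cast hN1'
  have hxpos : ∀ n ∈ Icc 1 N, 0 < xs α c n := by
    intro n hn
    rw [mem_Icc] at hn
    unfold xs
    have : (0 : ℝ) < n := by exact_mod_cast hn.1
    positivity
  set F : ℕ → ℝ := fun n => ff (xs α c n) (H n) - 1 with hF
  rw [← Finset.sum_filter_add_sum_filter_not (Icc 1 N) (fun n => 2 ^ i0 < ms α c n) F]
  set Big := (Icc 1 N).filter (fun n => 2 ^ i0 < ms α c n) with hBig
  set Sm := (Icc 1 N).filter (fun n => ¬ 2 ^ i0 < ms α c n) with hSm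
  -- the small ones
  have hsmall : |∑ n ∈ Sm, F n| ≤ (δ / 4) * N := by
    have h1 : ∀ n ∈ Sm, |F n| ≤ Bd := by
      intro n hn
      rw [hSm, mem_filter] at hn
      obtain ⟨hn1, hn2⟩ := hn
      push Not at hn2
      have h2 := hxpos n hn1
      have h3 := abs_ff_le h2.le (hH n hn1).1
      have h4 : |Real.log (xs α c n)| ≤ |Real.log α| + Real.log ((2 : ℝ) ^ (i0 + 1)) := by
        have h5 : α ≤ xs α c n := by
          unfold xs
          rw [mem_Icc] at hn1
          have : (1 : ℝ) ≤ (n : ℝ) ^ c := Real.one_le_rpow (by exact_mod_cast hn1.1) hc0.le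
          nlinarith
        have h6 : xs α c n ≤ (2 : ℝ) ^ (i0 + 1) := by
          have h7 : xs α c n < ms α c n + 1 := Nat.lt_floor_add_one _
          have h8 : (ms α c n : ℝ) ≤ 2 ^ i0 := by exact_mod_cast hn2
          have h9 : (1 : ℝ) ≤ 2 ^ i0 := one_le_pow₀ (by norm_num)
          rw [pow_succ]
          linarith
        have h7 := Real.log_le_log hα h5
        have h8 := Real.log_le_log h2 h6
        have h9 := neg_abs_le (Real.log α)
        have h10 := abs_nonneg (Real.log α)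
        rw [abs_le]
        constructor <;> linarith
      rw [hF]
      simp only
      have h5 := abs_sub (ff (xs α c n) (H n)) 1
      rw [abs_one] at h5
      rw [hBd]
      linarith
    have h2 : (Sm.card : ℝ) ≤ Cb * ((2 : ℝ) ^ i0) ^ (1 / c) := by
      apply hblock
      intro n hn
      rw [hSm, mem_filter] at hn
      obtain ⟨hn1, hn2⟩ := hn
      rw [mem_Icc] at hn1
      push Not at hn2
      refine ⟨hn1.1, hn2.trans ?_⟩
      exact Nat.pow_le_pow_right (by norm_num) (by omega)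
    calc |∑ n ∈ Sm, F n| ≤ ∑ n ∈ Sm, |F n| := Finset.abs_sum_le_sum_abs _ _
      _ ≤ ∑ n ∈ Sm, Bd := Finset.sum_le_sum h1
      _ = (Sm.card : ℝ) * Bd := by rw [sum_const, nsmul_eq_mul]
      _ ≤ (Cb * ((2 : ℝ) ^ i0) ^ (1 / c)) * Bd := mul_le_mul_of_nonneg_right h2 hBdpos.le
      _ ≤ (δ / 4) * N := by
          have h3 : (Cb * ((2 : ℝ) ^ i0) ^ (1 / c)) * Bd / (δ / 4) ≤ N := hN1.trans (by exact_mod_cast hNN1)
          rw [div_le_iff₀ (by positivity)] at h3
          linarith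
  -- the large ones
  set ind : ℕ → ℝ := fun n => if K * xs α c n < H n then 1 else 0 with hind
  have hind0 : ∀ n, 0 ≤ ind n := by
    intro n
    rw [hind]
    simp only
    split_ifs <;> norm_num
  have hbig_mem : ∀ n ∈ Big, 1 ≤ n ∧ n ≤ N ∧ 2 ^ i0 < ms α c n := by
    intro n hn
    rw [hBig, mem_filter, mem_Icc] at hn
    exact ⟨hn.1.1, hn.1.2, hn.2⟩
  have h2i0 : 2 ≤ 2 ^ i0 := by
    calc 2 = 2 ^ 1 := by norm_num
      _ ≤ 2 ^ i0 := Nat.pow_le_pow_right (by norm_num) (by omega)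
  have hmaps : ∀ n ∈ Big, sc (ms α c n) ∈ range (sc (ms α c N) + 1) := by
    intro n hn
    rw [mem_range]
    have := sc_mono (ms_mono hα hc0.le (hbig_mem n hn).2.1)
    omega
  have hfib : ∀ i ∈ range (sc (ms α c N) + 1), |∑ n ∈ Big.filter (fun n => sc (ms α c n) = i), F n| ≤
      (2 * δ1) * ((2 : ℝ) ^ i) ^ (1 / c) + 3 * ∑ n ∈ Big.filter (fun n => sc (ms α c n) = i), ind n := by
    intro i _
    set B := Big.filter (fun n => sc (ms α c n) = i) with hB
    have hXi : 0 < ((2 : ℝ) ^ i) ^ (1 / c) := by positivity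
    rcases B.eq_empty_or_nonempty with hemp | ⟨n', hn'⟩
    · rw [hemp]; simp; positivity
    have hBmem : ∀ n, n ∈ B ↔ 1 ≤ n ∧ n ≤ N ∧ 2 ^ i0 < ms α c n ∧ sc (ms α c n) = i := by
      intro n
      rw [hB, mem_filter, hBig, mem_filter, mem_Icc]
      tauto
    have hii0 : i0 ≤ i := by
      obtain ⟨-, -, h1, h2⟩ := (hBmem n').mp hn'
      rw [sc_iff (by omega)] at h2
      by_contra hcon
      push Not at hcon
      have h3 : 2 ^ (i + 1) ≤ 2 ^ i0 := Nat.pow_le_pow_right (by norm_num) (by omega)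
      omega
    have hBmem2 : ∀ n, n ∈ B ↔ 1 ≤ n ∧ n ≤ N ∧ 2 ^ i < ms α c n ∧ ms α c n ≤ 2 ^ (i + 1) := by
      intro n
      rw [hBmem n]
      have h3 : 2 ^ i0 ≤ 2 ^ i := Nat.pow_le_pow_right (by norm_num) hii0
      constructor
      · rintro ⟨h1, h2, h4, h5⟩
        rw [sc_iff (by omega)] at h5
        exact ⟨h1, h2, h5.1, h5.2⟩
      · rintro ⟨h1, h2, h4, h5⟩
        refine ⟨h1, h2, by omega, ?_⟩
        rw [sc_iff (by omega)]
        exact ⟨h4, h5⟩
    have hBIcc : ∀ n ∈ B, n ∈ Icc 1 N := fun n hn => by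
      have := (hBmem2 n).mp hn
      rw [mem_Icc]; exact ⟨this.1, this.2.1⟩
    rw [← Finset.sum_filter_add_sum_filter_not B (fun n => H n ≤ Yv i) F]
    -- short lengths
    have g1 : |∑ n ∈ B.filter (fun n => H n ≤ Yv i), F n| ≤ δ1 * ((2 : ℝ) ^ i) ^ (1 / c) := by
      apply hscale i (hi01.trans hii0) N H hmono
      · intro n
        rw [mem_filter, hBmem2]
        tauto
      · intro n hn
        rw [mem_filter] at hn
        have h1 := (hBmem2 n).mp hn.1
        have h2 : n1 ≤ n := by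
          by_contra hcon
          push Not at hcon
          have h3 := ms_mono hα hc0.le hcon.le
          have h4 := (Nat.lt_two_pow_self (n := i)).le
          omega
        exact (hn1 n h2).trans (hH n (hBIcc n hn.1)).2.1
    -- long lengths
    have g2 : |∑ n ∈ B.filter (fun n => ¬ H n ≤ Yv i), F n| ≤ δ1 * ((2 : ℝ) ^ i) ^ (1 / c) +
        3 * ∑ n ∈ B, ind n := by
      have h1 : ∀ n ∈ B.filter (fun n => ¬ H n ≤ Yv i), |F n| ≤ δ2 + 3 * ind n := by
        intro n hn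
        rw [mem_filter] at hn
        obtain ⟨hnB, hnY⟩ := hn
        push Not at hnY
        obtain ⟨m1, m2, m3, m4⟩ := (hBmem2 n).mp hnB
        have hx := hxpos n (hBIcc n hnB)
        have x1 : (ms α c n : ℝ) ≤ xs α c n := Nat.floor_le hx.le
        have x2 : xs α c n < ms α c n + 1 := Nat.lt_floor_add_one _
        have x3 : (2 : ℝ) ^ i < ms α c n := by exact_mod_cast m3
        have x4 : (ms α c n : ℝ) ≤ 2 ^ (i + 1) := by exact_mod_cast m4
        have x5 : (1 : ℝ) ≤ 2 ^ i := one_le_pow₀ (by norm_num)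
        rw [pow_succ] at x4
        rw [hF, hind]
        simp only
        split_ifs with hKx
        · have h2 : xs α c n ≤ H n := by nlinarith
          have h3 := ff_le_three (x := xs α c n) (H := H n) (by linarith) h2
          have h4 := ff_nonneg (x := xs α c n) (H := H n) (by linarith) (by linarith)
          rw [abs_le]
          constructor <;> linarith
        · push Not at hKx
          have h2 : x0 ≤ xs α c n := by
            have h3 : (i2 : ℝ) ≤ (i : ℝ) := by exact_mod_cast hi02.trans hii0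
            have h4 : (i : ℝ) ≤ 2 ^ i := by exact_mod_cast (Nat.lt_two_pow_self (n := i)).le
            linarith
          have h5 := hpoint (xs α c n) h2 (H n)
            ((Yv_ge (hi04.trans hii0) (by linarith) (by linarith)).trans hnY.le) hKx
          linarith
      have h2 : (B.card : ℝ) ≤ Cb * ((2 : ℝ) ^ i) ^ (1 / c) :=
        hblock i B (fun n hn => ⟨((hBmem2 n).mp hn).1, ((hBmem2 n).mp hn).2.2.2⟩)
      calc |∑ n ∈ B.filter (fun n => ¬ H n ≤ Yv i), F n| ≤
          ∑ n ∈ B.filter (fun n => ¬ H n ≤ Yv i), |F n| := Finset.abs_sum_le_sum_abs _ _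
        _ ≤ ∑ n ∈ B.filter (fun n => ¬ H n ≤ Yv i), (δ2 + 3 * ind n) := Finset.sum_le_sum h1
        _ ≤ ∑ n ∈ B, (δ2 + 3 * ind n) := by
            apply Finset.sum_le_sum_of_subset_of_nonneg (Finset.filter_subset _ _)
            intro n _ _
            have := hind0 n
            positivity
        _ = B.card * δ2 + 3 * ∑ n ∈ B, ind n := by
            rw [Finset.sum_add_distrib, sum_const, nsmul_eq_mul, Finset.mul_sum]
        _ ≤ δ1 * ((2 : ℝ) ^ i) ^ (1 / c) + 3 * ∑ n ∈ B, ind n := by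
            have h3 : (B.card : ℝ) * δ2 ≤ δ1 * ((2 : ℝ) ^ i) ^ (1 / c) := by
              calc (B.card : ℝ) * δ2 ≤ (Cb * ((2 : ℝ) ^ i) ^ (1 / c)) * δ2 :=
                    mul_le_mul_of_nonneg_right h2 hδ2pos.le
                _ = (δ2 * Cb) * ((2 : ℝ) ^ i) ^ (1 / c) := by ring
                _ ≤ _ := mul_le_mul_of_nonneg_right hδ2Cb hXi.le
            linarith
    refine (abs_add_le _ _).trans ?_
    linarith
  have hbig : |∑ n ∈ Big, F n| ≤ (3 * δ / 4) * N := by
    rcases Big.eq_empty_or_nonempty with hemp | ⟨n', hn'⟩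
    · rw [hemp]; simp; positivity
    have hN2 : 2 ≤ ms α c N := by
      have h2 := hbig_mem n' hn'
      have h3 := ms_mono hα hc0.le h2.2.1
      omega
    rw [← Finset.sum_fiberwise_of_maps_to hmaps]
    refine (Finset.abs_sum_le_sum_abs _ _).trans ((Finset.sum_le_sum hfib).trans ?_)
    rw [Finset.sum_add_distrib, ← Finset.mul_sum, ← Finset.mul_sum]
    have e1 : ∑ i ∈ range (sc (ms α c N) + 1), ∑ n ∈ Big.filter (fun n => sc (ms α c n) = i), ind n =
        ∑ n ∈ Big, ind n := Finset.sum_fiberwise_of_maps_to hmaps ind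
    rw [e1]
    have h1 : ∑ n ∈ Big, ind n ≤ N * δ / 12 := by
      have e2 : ∑ n ∈ Big, ind n = ((Big.filter (fun n => K * xs α c n < H n)).card : ℝ) := by
        rw [Finset.card_filter]
        push_cast
        rfl
      rw [e2]
      apply T_card hα hc hδ (le_max_right 1 _) N H (fun n hn => (hH n hn).2.2)
      intro n hn
      rw [mem_filter] at hn
      have := hbig_mem n hn.1
      refine ⟨?_, hn.2⟩
      rw [mem_Icc]
      exact ⟨this.1, this.2.1⟩
    have h2 : ((2 : ℝ) ^ (sc (ms α c N))) ^ (1 / c) ≤ α ^ (1 / c) * N := by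
      have h3 : 2 ^ (sc (ms α c N)) < ms α c N := ((sc_iff hN2).mp rfl).1
      have h4 : (2 : ℝ) ^ (sc (ms α c N)) ≤ xs α c N := by
        have h5 : (2 : ℝ) ^ (sc (ms α c N)) < ms α c N := by exact_mod_cast h3
        have h6 : (ms α c N : ℝ) ≤ xs α c N := Nat.floor_le (xs_nonneg hα N)
        linarith
      calc ((2 : ℝ) ^ (sc (ms α c N))) ^ (1 / c) ≤ (xs α c N) ^ (1 / c) :=
            Real.rpow_le_rpow (by positivity) h4 (by positivity)
        _ = α ^ (1 / c) * N := by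
            unfold xs
            rw [Real.mul_rpow hα.le (by positivity), ← Real.rpow_mul hNpos.le,
              mul_one_div_cancel hc0.ne', Real.rpow_one]
    have h3 := hgeo (sc (ms α c N))
    have h4 : (2 * δ1) * ∑ i ∈ range (sc (ms α c N) + 1), ((2 : ℝ) ^ i) ^ (1 / c) ≤ (δ / 2) * N := by
      calc (2 * δ1) * ∑ i ∈ range (sc (ms α c N) + 1), ((2 : ℝ) ^ i) ^ (1 / c) ≤
          (2 * δ1) * (Cg * (α ^ (1 / c) * N)) := by
            apply mul_le_mul_of_nonneg_left _ (by positivity)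
            exact h3.trans (mul_le_mul_of_nonneg_left h2 hCg.le)
        _ = (2 * δ1 * Ca) * N := by rw [hCa]; ring
        _ = (δ / 2) * N := by
            congr 1
            rw [hδ1]
            field_simp
            norm_num
    linarith
  have h := abs_add_le (∑ n ∈ Big, F n) (∑ n ∈ Sm, F n)
  refine h.trans ?_
  linarith

end Pool.Agent.Y854.PS
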